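import Mathlib

/-!
Virtual link diagrams up to detour moves are Gauss diagrams.  A genus zero movie of a virtual knot
in which no Reidemeister 3 move comes after the first birth can be replaced by a movie without
births.
-/

namespace Pool.Agent.Results.MP_fa0691_gt.NoR3AfterBirth

/-- An end of a crossing of a diagram: the name of the crossing, whether the end is the over
passage or the under passage, and whether the crossing is positive. -/
structure End where
  name : ℕ
  top : Bool
  pos : Bool
deriving DecidableEq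

/-- The other end of the same crossing. -/
def End.flip (e : End) : End := ⟨e.name, !e.top, e.pos⟩

/-- A finite family of oriented circles.  Each circle carries the word of the crossing ends met
along it, read cyclically, and a number telling to which component of the schema built so far it
belongs. -/
abbrev Link := Multiset (ℕ × List End)

/-- All crossing ends on all circles. -/
def ends (L : Link) : Multiset End := L.bind fun c => (c.2 : Multiset End)

/-- Every end occurs once, with the other end of its crossing, and different crossings have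
different names. -/
def IsDiagram (L : Link) : Prop :=
  (ends L).Nodup ∧ (∀ e ∈ ends L, e.flip ∈ ends L) ∧
    ∀ e ∈ ends L, ∀ f ∈ ends L, e.name = f.name → f = e ∨ f = e.flip

/-- A diagram with `k` numbered gaps in its circles. -/
abbrev Pattern (k : ℕ) := Multiset (ℕ × List (End ⊕ Fin k))

/-- Each gap occurs exactly once. -/
def Pattern.Once {k : ℕ} (C : Pattern k) : Prop :=
  ∀ i : Fin k, (C.bind fun c => (c.2 : Multiset (End ⊕ Fin k))).count (Sum.inr i) = 1

/-- Fill the gap number `i` by the word `f i`. -/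
def fill {k : ℕ} (f : Fin k → List End) (C : Pattern k) : Link :=
  C.map fun c => (c.1, c.2.flatMap (Sum.elim (fun e => [e]) f))

/-- Two letters in this order, or in the opposite order. -/
def order (t : Bool) (x y : End) : List End := if t then [x, y] else [y, x]

/-- The top, middle and bottom strand of a Reidemeister 3 triangle.  The crossing `a` is between
the top and the middle strand, `b` between the top and the bottom strand, `c` between the middle
and the bottom strand; `sa`, `sb`, `sc` say which of them are positive; `k` tells on which side of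
the top strand the crossing `c` lies. -/
def tri (a b c : ℕ) (sa sb sc k : Bool) : Fin 3 → List End :=
  ![order (k == (sa == (sb == sc))) ⟨b, true, sb⟩ ⟨a, true, sa⟩,
    order (k == sa) ⟨c, true, sc⟩ ⟨a, false, sa⟩,
    order (k == sb) ⟨c, false, sc⟩ ⟨b, false, sb⟩]

/-- The kinds of moves. -/
inductive Kind
  | rotate | r1del | r1add | r2del | r2add | r3 | birth | death | split | merge

/-- The moves. -/
inductive Step : Kind → Link → Link → Prop
  | rotate (i : ℕ) (u v : List End) (R : Link) :
      Step .rotate ((i, u ++ v) ::ₘ R) ((i, v ++ u) ::ₘ R)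
  | r1del (e : End) (C : Pattern 1) (hC : C.Once) :
      Step .r1del (fill ![[e, e.flip]] C) (fill ![[]] C)
  | r1add (e : End) (C : Pattern 1) (hC : C.Once) :
      Step .r1add (fill ![[]] C) (fill ![[e, e.flip]] C)
  | r2del (a b : End) (t : Bool) (hk : a.top = b.top) (hs : a.pos = !b.pos)
      (C : Pattern 2) (hC : C.Once) :
      Step .r2del (fill ![[a, b], order t a.flip b.flip] C) (fill ![[], []] C)
  | r2add (a b : End) (t : Bool) (hk : a.top = b.top) (hs : a.pos = !b.pos)
      (C : Pattern 2) (hC : C.Once) :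
      Step .r2add (fill ![[], []] C) (fill ![[a, b], order t a.flip b.flip] C)
  | r3 (a b c : ℕ) (sa sb sc k : Bool) (C : Pattern 3) (hC : C.Once) :
      Step .r3 (fill (tri a b c sa sb sc k) C) (fill (tri a b c sa sb sc !k) C)
  | birth (i : ℕ) (R : Link) (hi : ∀ c ∈ R, c.1 ≠ i) : Step .birth R ((i, []) ::ₘ R)
  | death (i : ℕ) (R : Link) : Step .death ((i, []) ::ₘ R) R
  | split (i : ℕ) (u v : List End) (R : Link) :
      Step .split ((i, u ++ v) ::ₘ R) ((i, u) ::ₘ (i, v) ::ₘ R)
  | merge (i j : ℕ) (u v : List End) (R : Link) (hij : i ≠ j) :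
      Step .merge ((i, u) ::ₘ (j, v) ::ₘ R)
        (((i, u ++ v) ::ₘ R).map fun c => (if c.1 = j then i else c.1, c.2))

/-- A movie from `L` to `L'` all of whose moves are of the allowed kinds. -/
def Movie (allowed : Set Kind) (L L' : Link) : Prop :=
  Relation.ReflTransGen
    (fun S T => IsDiagram S ∧ IsDiagram T ∧ ∃ m ∈ allowed, Step m S T) L L'

/-- Ribbon: a genus zero movie to the empty link without births. -/
def Ribbon (K : List End) : Prop := Movie {m | m ≠ Kind.birth} {(0, K)} 0

/-- The end matched with `e`, for a matching of crossings given by `μ`: a crossing matched with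
itself has its two ends matched; if different crossings are matched, they have opposite signs, and
over ends are matched with over ends, under ends with under ends. -/
def partner (μ : ℕ → ℕ) (e : End) : End :=
  if μ e.name = e.name then e.flip else ⟨μ e.name, e.top, !e.pos⟩

/-- The matching pairs the ends on the circle `w` among themselves, and no two pairs cross. -/
def NonCrossing (μ : ℕ → ℕ) (w : List End) : Prop :=
  (∀ e ∈ w, partner μ e ∈ w) ∧ ∀ e f, ¬ [e, f, partner μ e, partner μ f].Sublist w

/-! ### Products of conjugates -/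

section Pr

variable {G : Type} [Group G]

/-- `Pr M k`: `k` is a product, in some order, of conjugates of the members of `M`. -/
inductive Pr : Multiset G → G → Prop
  | nil : Pr 0 1
  | cons (g a : G) (M : Multiset G) (k : G) : Pr M k → Pr (a ::ₘ M) (g * a * g⁻¹ * k)

theorem Pr.conj {M : Multiset G} {k : G} (h : Pr M k) (x : G) : Pr M (x * k * x⁻¹) := by
  induction h with
  | nil => simpa using Pr.nil
  | cons g a M k _ ih =>
    have := Pr.cons (x * g) a M _ ih
    convert this using 1
    group

theorem Pr.add {M N : Multiset G} {k k' : G} (h : Pr M k) (h' : Pr N k') :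
    Pr (M + N) (k * k') := by
  induction h with
  | nil => simpa using h'
  | cons g a M k _ ih =>
    have := Pr.cons g a _ _ ih
    rw [Multiset.cons_add]
    convert this using 1
    group

theorem Pr.take {N : Multiset G} {k : G} (h : Pr N k) :
    ∀ (a : G) (M : Multiset G), N = a ::ₘ M → ∃ g k', Pr M k' ∧ k = g * a * g⁻¹ * k' := by
  induction h with
  | nil => intro a M h; exact absurd h (by simp)
  | cons g b N' k hk ih =>
    intro a M h
    rcases Multiset.cons_eq_cons.1 h with ⟨rfl, rfl⟩ | ⟨_, M'', rfl, rfl⟩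
    · exact ⟨g, k, hk, rfl⟩
    · obtain ⟨g', k'', h1, h2⟩ := ih a M'' rfl
      refine ⟨g * b * g⁻¹ * g', g * b * g⁻¹ * k'', Pr.cons g b _ _ h1, ?_⟩
      rw [h2]; group

theorem Pr.zero {N : Multiset G} {k : G} (h : Pr N k) (hN : N = 0) : k = 1 := by
  induction h with
  | nil => rfl
  | cons => exact absurd hN (by simp)

theorem Pr.one_cons {M : Multiset G} {k : G} (h : Pr M k) : Pr (1 ::ₘ M) k := by
  have := Pr.cons 1 1 M k h
  simpa using this

theorem Pr.of_one_cons {M : Multiset G} {k : G} (h : Pr (1 ::ₘ M) k) : Pr M k := by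
  obtain ⟨g, k', h1, h2⟩ := h.take 1 M rfl
  rw [h2]; simpa using h1

theorem Pr.conj_cons {M : Multiset G} {k a : G} (h : Pr (a ::ₘ M) k) (x : G) :
    Pr ((x * a * x⁻¹) ::ₘ M) k := by
  obtain ⟨g, k', h1, h2⟩ := h.take a M rfl
  have := Pr.cons (g * x⁻¹) (x * a * x⁻¹) M k' h1
  rw [h2]
  convert this using 1
  group

theorem Pr.rot {M : Multiset G} {k a b : G} (h : Pr ((a * b) ::ₘ M) k) :
    Pr ((b * a) ::ₘ M) k := by
  have := h.conj_cons a⁻¹
  convert this using 2
  group

theorem Pr.split {M : Multiset G} {k a b : G} (h : Pr ((a * b) ::ₘ M) k) :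
    Pr (a ::ₘ b ::ₘ M) k := by
  obtain ⟨g, k', h1, h2⟩ := h.take _ M rfl
  have := Pr.cons g a _ _ (Pr.cons g b M k' h1)
  rw [h2]
  convert this using 1
  group

theorem Pr.merge_left {M N : Multiset G} {k a b : G} (h : Pr (a ::ₘ M) k)
    (h' : Pr (b ::ₘ N) 1) : Pr ((a * b) ::ₘ (M + N)) k := by
  obtain ⟨g, x, h1, h2⟩ := h.take _ M rfl
  obtain ⟨g', y, h3, h4⟩ := h'.take _ N rfl
  have h5 := (h3.conj (g * g'⁻¹)).add h1
  have h6 := Pr.cons g (a * b) _ _ h5
  rw [add_comm] at h6
  have h7 : b = g'⁻¹ * y⁻¹ * g' := by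
    have : y = (g' * b * g'⁻¹)⁻¹ := by
      rw [eq_inv_iff_mul_eq_one]
      have h8 := congrArg (fun t => (g' * b * g'⁻¹)⁻¹ * t * (g' * b * g'⁻¹)) h4
      simp only [mul_one, inv_mul_cancel] at h8
      rw [h8]; group
    rw [this]; group
  convert h6 using 1
  rw [h2, h7]; group

theorem Pr.merge_right {M N : Multiset G} {k a b : G} (h : Pr (a ::ₘ M) 1)
    (h' : Pr (b ::ₘ N) k) : Pr ((a * b) ::ₘ (M + N)) k := by
  have := (h'.merge_left h).rot
  rwa [add_comm] at this

/-- The product of the values of the letters of a word. -/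
def ev (ℓ : End → G) (w : List End) : G := (w.map ℓ).prod

/-- The values of the circles with the label `i`. -/
def vals (ℓ : End → G) (S : Link) (i : ℕ) : Multiset G :=
  (S.filter fun c => c.1 = i).map fun c => ev ℓ c.2

/-- `k` is a product of conjugates of the circles of one label, and for all other labels `1` is. -/
def Hyp (ℓ : End → G) (S : Link) (k : G) : Prop :=
  ∃ r, Pr (vals ℓ S r) k ∧ ∀ i, i ≠ r → Pr (vals ℓ S i) 1

theorem ev_append (ℓ : End → G) (u v : List End) : ev ℓ (u ++ v) = ev ℓ u * ev ℓ v := by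
  simp [ev]

theorem ev_cons (ℓ : End → G) (e : End) (v : List End) : ev ℓ (e :: v) = ℓ e * ev ℓ v := by
  simp [ev]

theorem ev_nil (ℓ : End → G) : ev ℓ [] = 1 := by
  simp [ev]

theorem vals_cons (ℓ : End → G) (c : ℕ × List End) (S : Link) (i : ℕ) :
    vals ℓ (c ::ₘ S) i = if c.1 = i then ev ℓ c.2 ::ₘ vals ℓ S i else vals ℓ S i := by
  unfold vals
  split_ifs with h
  · rw [Multiset.filter_cons_of_pos (p := fun c : ℕ × List End => c.1 = i) _ h,
      Multiset.map_cons]
  · rw [Multiset.filter_cons_of_neg (p := fun c : ℕ × List End => c.1 = i) _ h]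

theorem vals_zero (ℓ : End → G) (i : ℕ) : vals ℓ 0 i = 0 := by
  simp [vals]

theorem vals_relabel (ℓ : End → G) (i j : ℕ) (hij : i ≠ j) (S : Link) (h : ℕ) :
    vals ℓ (S.map fun c => (if c.1 = j then i else c.1, c.2)) h =
      if h = j then 0 else if h = i then vals ℓ S i + vals ℓ S j else vals ℓ S h := by
  induction S using Multiset.induction_on with
  | empty => simp [vals]
  | cons c S ih =>
    rw [Multiset.map_cons, vals_cons, ih, vals_cons, vals_cons, vals_cons]
    dsimp only
    by_cases h1 : h = j
    · subst h1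
      by_cases h2 : c.1 = h
      · simp [h2, hij]
      · simp [h2]
    · by_cases h2 : h = i
      · subst h2
        by_cases h3 : c.1 = j
        · simp [h3, h1, Ne.symm h1]
        · by_cases h4 : c.1 = h
          · simp [h4, h1]
          · simp [h3, h4, h1]
      · by_cases h3 : c.1 = j
        · simp [h3, h1, h2, Ne.symm h1, Ne.symm h2]
        · by_cases h4 : c.1 = h
          · simp [h4, h1, h2]
          · simp [h3, h4, h1, h2]

theorem Hyp.mono {ℓ ℓ' : End → G} {S S' : Link} {k : G} (h : Hyp ℓ S k)
    (hm : ∀ i x, Pr (vals ℓ S i) x → Pr (vals ℓ' S' i) x) : Hyp ℓ' S' k := by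
  obtain ⟨r, h1, h2⟩ := h
  exact ⟨r, hm _ _ h1, fun i hi => hm _ _ (h2 i hi)⟩

theorem Hyp.rotate {ℓ : End → G} {i : ℕ} {u v : List End} {R : Link} {k : G}
    (h : Hyp ℓ ((i, u ++ v) ::ₘ R) k) : Hyp ℓ ((i, v ++ u) ::ₘ R) k := by
  refine h.mono fun j x hx => ?_
  rw [vals_cons] at hx ⊢
  dsimp only at hx ⊢
  split_ifs at hx ⊢ with h1
  · rw [ev_append] at hx ⊢
    exact hx.rot
  · exact hx

theorem Hyp.split {ℓ : End → G} {i : ℕ} {u v : List End} {R : Link} {k : G}
    (h : Hyp ℓ ((i, u ++ v) ::ₘ R) k) : Hyp ℓ ((i, u) ::ₘ (i, v) ::ₘ R) k := by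
  refine h.mono fun j x hx => ?_
  rw [vals_cons] at hx
  rw [vals_cons, vals_cons]
  dsimp only at hx ⊢
  split_ifs at hx ⊢ with h1
  · rw [ev_append] at hx
    exact hx.split
  · exact hx

theorem Hyp.birth {ℓ : End → G} {i : ℕ} {R : Link} {k : G}
    (h : Hyp ℓ R k) : Hyp ℓ ((i, []) ::ₘ R) k := by
  refine h.mono fun j x hx => ?_
  rw [vals_cons]
  dsimp only
  split_ifs with h1
  · rw [ev_nil]
    exact hx.one_cons
  · exact hx

theorem Hyp.death {ℓ : End → G} {i : ℕ} {R : Link} {k : G}
    (h : Hyp ℓ ((i, []) ::ₘ R) k) : Hyp ℓ R k := by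
  refine h.mono fun j x hx => ?_
  rw [vals_cons] at hx
  dsimp only at hx
  split_ifs at hx with h1
  · rw [ev_nil] at hx
    exact hx.of_one_cons
  · exact hx

theorem Hyp.merge {ℓ : End → G} {i j : ℕ} {u v : List End} {R : Link} {k : G} (hij : i ≠ j)
    (h : Hyp ℓ ((i, u) ::ₘ (j, v) ::ₘ R) k) :
    Hyp ℓ (((i, u ++ v) ::ₘ R).map fun c => (if c.1 = j then i else c.1, c.2)) k := by
  obtain ⟨r, h1, h2⟩ := h
  have key : ∀ h, vals ℓ (((i, u ++ v) ::ₘ R).map fun c => (if c.1 = j then i else c.1, c.2)) h =
      if h = j then 0 else if h = i then (ev ℓ u * ev ℓ v) ::ₘ (vals ℓ R i + vals ℓ R j)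
        else vals ℓ R h := by
    intro h
    rw [vals_relabel ℓ i j hij, vals_cons, vals_cons, vals_cons]
    dsimp only
    rw [ev_append]
    by_cases h3 : h = j
    · simp [h3]
    · by_cases h4 : h = i
      · subst h4; simp [h3]
      · simp [h3, h4, Ne.symm h4]
  have vi : vals ℓ ((i, u) ::ₘ (j, v) ::ₘ R) i = ev ℓ u ::ₘ vals ℓ R i := by
    rw [vals_cons, vals_cons]; simp [Ne.symm hij]
  have vj : vals ℓ ((i, u) ::ₘ (j, v) ::ₘ R) j = ev ℓ v ::ₘ vals ℓ R j := by
    rw [vals_cons, vals_cons]; simp [hij]
  have vo : ∀ h, h ≠ i → h ≠ j → vals ℓ ((i, u) ::ₘ (j, v) ::ₘ R) h = vals ℓ R h := by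
    intro h h1 h2
    rw [vals_cons, vals_cons]; simp [Ne.symm h1, Ne.symm h2]
  by_cases hri : r = i
  · subst hri
    refine ⟨r, ?_, ?_⟩
    · rw [key, if_neg hij, if_pos rfl]
      rw [vi] at h1
      have h3 := h2 j (Ne.symm hij)
      rw [vj] at h3
      exact h1.merge_left h3
    · intro h hh
      rw [key]
      split_ifs with h4
      · exact Pr.nil
      · have := h2 h hh
        rwa [vo h hh h4] at this
  · by_cases hrj : r = j
    · subst hrj
      refine ⟨i, ?_, ?_⟩
      · rw [key, if_neg hij, if_pos rfl]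
        rw [vj] at h1
        have h3 := h2 i hij
        rw [vi] at h3
        exact h3.merge_right h1
      · intro h hh
        rw [key]
        split_ifs with h4
        · exact Pr.nil
        · have := h2 h h4
          rwa [vo h hh h4] at this
    · refine ⟨r, ?_, ?_⟩
      · rw [key, if_neg hrj, if_neg hri, ← vo r hri hrj]
        exact h1
      · intro h hh
        rw [key]
        split_ifs with h4 h5
        · exact Pr.nil
        · have h6 := h2 i (Ne.symm hri)
          have h7 := h2 j (Ne.symm hrj)
          rw [vi] at h6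
          rw [vj] at h7
          exact h6.merge_left h7
        · have := h2 h hh
          rwa [vo h h5 h4] at this

end Pr

/-! ### Matchings -/

theorem flip_flip (e : End) : e.flip.flip = e := by
  simp [End.flip]

theorem partner_name (μ : ℕ → ℕ) (e : End) : (partner μ e).name = μ e.name := by
  unfold partner
  split_ifs with h
  · rw [h]; rfl
  · rfl

theorem partner_self {μ : ℕ → ℕ} {e : End} (h : μ e.name = e.name) : partner μ e = e.flip := by
  rw [partner, if_pos h]

theorem partner_ne {μ : ℕ → ℕ} {e : End} (h : μ e.name ≠ e.name) :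
    partner μ e = ⟨μ e.name, e.top, !e.pos⟩ := by
  rw [partner, if_neg h]

/-- `μ` gives a matching of the set `P` of ends. -/
def Valid (μ : ℕ → ℕ) (P : End → Prop) : Prop :=
  ∀ x, P x → μ (μ x.name) = x.name ∧ P (partner μ x)

/-- `ℓ` takes matched ends to inverse elements. -/
def Compat {G : Type} [Group G] (μ : ℕ → ℕ) (P : End → Prop) (ℓ : End → G) : Prop :=
  ∀ x, P x → ℓ (partner μ x) = (ℓ x)⁻¹

theorem partner_partner {μ : ℕ → ℕ} {e : End} (h : μ (μ e.name) = e.name) :
    partner μ (partner μ e) = e := by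
  by_cases h1 : μ e.name = e.name
  · rw [partner_self h1, partner_self (by simpa [End.flip] using h1), flip_flip]
  · rw [partner_ne h1, partner_ne (by simpa [h] using Ne.symm h1)]
    cases e
    simp_all

theorem partner_congr {μ μ' : ℕ → ℕ} {e : End} (h : μ e.name = μ' e.name) :
    partner μ e = partner μ' e := by
  unfold partner
  rw [h]

theorem flip_partner (μ : ℕ → ℕ) (e : End) : partner μ e.flip = (partner μ e).flip := by
  unfold partner
  simp only [End.flip]
  split_ifs with h <;> simp [h]

theorem partner_ne_self (μ : ℕ → ℕ) (e : End) : partner μ e ≠ e := by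
  intro h
  by_cases h1 : μ e.name = e.name
  · rw [partner_self h1] at h
    have := congrArg End.top h
    simp [End.flip] at this
  · rw [partner_ne h1] at h
    have := congrArg End.pos h
    simp at this

theorem restrict1 {P : End → Prop} {n : ℕ} {s : Bool} {μ' : ℕ → ℕ}
    (hn : ∀ x, P x → x.name ≠ n) (hμ : Valid μ' P) :
    ∃ μ : ℕ → ℕ, Valid μ (fun x => P x ∨ (x.name = n ∧ x.pos = s)) ∧
      ∀ (G : Type) [Group G] (ℓ : End → G),
        Compat μ (fun x => P x ∨ (x.name = n ∧ x.pos = s)) ℓ →
          Compat μ' P ℓ ∧ ∀ o, ℓ ⟨n, o, s⟩ * ℓ ⟨n, !o, s⟩ = 1 := by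
  have hp : ∀ x, P x → partner (fun p => if p = n then n else μ' p) x = partner μ' x := by
    intro x hx
    exact partner_congr (by simp [hn x hx])
  refine ⟨fun p => if p = n then n else μ' p, ?_, ?_⟩
  · rintro x (hx | ⟨h1, h2⟩)
    · have h1 := hn x hx
      have h2 := hn _ (hμ x hx).2
      rw [partner_name] at h2
      refine ⟨by simp [h1, h2, (hμ x hx).1], Or.inl ?_⟩
      rw [hp x hx]; exact (hμ x hx).2
    · refine ⟨by simp [h1], Or.inr ?_⟩
      rw [partner_self (by simp [h1])]
      exact ⟨h1, h2⟩
  · intro G _ ℓ hℓ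
    refine ⟨fun x hx => ?_, fun o => ?_⟩
    · rw [← hp x hx]; exact hℓ x (Or.inl hx)
    · have := hℓ ⟨n, o, s⟩ (Or.inr ⟨rfl, rfl⟩)
      rw [partner_self (by simp)] at this
      rw [mul_eq_one_iff_inv_eq, ← this]
      rfl

theorem restrict2 {P : End → Prop} {n m : ℕ} {s : Bool} {μ' : ℕ → ℕ} (hnm : n ≠ m)
    (hn : ∀ x, P x → x.name ≠ n ∧ x.name ≠ m) (hμ : Valid μ' P) :
    ∃ μ : ℕ → ℕ,
      Valid μ (fun x => P x ∨ (x.name = n ∧ x.pos = s) ∨ (x.name = m ∧ x.pos = !s)) ∧
      ∀ (G : Type) [Group G] (ℓ : End → G),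
        Compat μ (fun x => P x ∨ (x.name = n ∧ x.pos = s) ∨ (x.name = m ∧ x.pos = !s)) ℓ →
          Compat μ' P ℓ ∧ ∀ o, ℓ ⟨n, o, s⟩ * ℓ ⟨m, o, !s⟩ = 1 := by
  have hp : ∀ x, P x →
      partner (fun p => if p = n then m else if p = m then n else μ' p) x = partner μ' x := by
    intro x hx
    exact partner_congr (by simp [(hn x hx).1, (hn x hx).2])
  refine ⟨fun p => if p = n then m else if p = m then n else μ' p, ?_, ?_⟩
  · rintro x (hx | ⟨h1, h2⟩ | ⟨h1, h2⟩)
    · have h1 := hn x hx
      have h2 := hn _ (hμ x hx).2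
      rw [partner_name] at h2
      refine ⟨by simp [h1.1, h1.2, h2.1, h2.2, (hμ x hx).1], Or.inl ?_⟩
      rw [hp x hx]; exact (hμ x hx).2
    · refine ⟨by simp [h1, Ne.symm hnm], Or.inr (Or.inr ?_)⟩
      rw [partner_ne (by simp [h1, Ne.symm hnm])]
      simp [h1, h2]
    · refine ⟨by simp [h1, Ne.symm hnm], Or.inr (Or.inl ?_)⟩
      rw [partner_ne (by simp [h1, hnm, Ne.symm hnm])]
      simp [h1, h2, Ne.symm hnm]
  · intro G _ ℓ hℓ
    refine ⟨fun x hx => ?_, fun o => ?_⟩
    · rw [← hp x hx]; exact hℓ x (Or.inl hx)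
    · have := hℓ ⟨n, o, s⟩ (Or.inr (Or.inl ⟨rfl, rfl⟩))
      rw [partner_ne (by simp [Ne.symm hnm])] at this
      rw [mul_eq_one_iff_inv_eq, ← this]
      simp

theorem extend1 {P : End → Prop} {n : ℕ} {s : Bool} {μ' : ℕ → ℕ}
    (hn : ∀ x, P x → x.name ≠ n) (hf : ∀ x, P x → P x.flip)
    (hμ : Valid μ' (fun x => P x ∨ (x.name = n ∧ x.pos = s))) :
    ∃ μ : ℕ → ℕ, Valid μ P ∧
      ∀ (G : Type) [Group G] (ℓ : End → G), Compat μ P ℓ → ∃ ℓ' : End → G,
        Compat μ' (fun x => P x ∨ (x.name = n ∧ x.pos = s)) ℓ' ∧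
        (∀ x, P x → ℓ' x = ℓ x) ∧ ∀ o, ℓ' ⟨n, o, s⟩ * ℓ' ⟨n, !o, s⟩ = 1 := by
  have hplain : ∀ x, (P x ∨ (x.name = n ∧ x.pos = s)) → x.name ≠ n → P x := by
    rintro x (h | ⟨h, -⟩) h'
    · exact h
    · exact absurd h h'
  have hin : μ' (μ' n) = n := (hμ ⟨n, true, s⟩ (Or.inr ⟨rfl, rfl⟩)).1
  refine ⟨fun p => if μ' p = n then p else μ' p, ?_, ?_⟩
  · intro x hx
    have h1 := hn x hx
    obtain ⟨h2, h3⟩ := hμ x (Or.inl hx)
    by_cases h4 : μ' x.name = n
    · refine ⟨by simp [h4], ?_⟩
      rw [partner_self (by simp [h4])]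
      exact hf x hx
    · refine ⟨by simp [h4, h2, h1], ?_⟩
      rw [partner_congr (μ' := μ') (by simp [h4])]
      refine hplain _ h3 ?_
      rw [partner_name]; exact h4
  · intro G _ ℓ hℓ
    -- the partner of the end `⟨n, o, s⟩`, when it is not of the same crossing
    have hpn : μ' n ≠ n → ∀ o, P ⟨μ' n, o, !s⟩ := by
      intro h o
      have h1 := (hμ ⟨n, o, s⟩ (Or.inr ⟨rfl, rfl⟩)).2
      rw [partner_ne (by simpa using h)] at h1
      exact hplain _ h1 (by simpa using h)
    have hv : ∀ v : Bool → G, v = (fun o => if μ' n = n then 1 else (ℓ ⟨μ' n, o, !s⟩)⁻¹) →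
        ∀ o, v (!o) = (v o)⁻¹ := by
      rintro v rfl o
      by_cases h : μ' n = n
      · simp [h]
      · simp only [h, if_false]
        have h1 := hℓ _ (hpn h o)
        rw [partner_self (by simp [hin])] at h1
        simp only [End.flip] at h1
        rw [h1]
    generalize hvd : (fun o : Bool => if μ' n = n then (1 : G) else (ℓ ⟨μ' n, o, !s⟩)⁻¹) = v at hv
    have hv := hv v rfl
    refine ⟨fun x => if x.name = n then v x.top else ℓ x, ?_, ?_, ?_⟩
    · rintro x hx
      by_cases h1 : x.name = n
      · have hxs : x.pos = s := by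
          rcases hx with hx | hx
          · exact absurd h1 (hn x hx)
          · exact hx.2
        by_cases h2 : μ' x.name = x.name
        · rw [partner_self h2]
          simp only [End.flip, h1, if_true]
          exact hv _
        · rw [partner_ne h2]
          have h3 : μ' n ≠ n := by rw [h1] at h2; exact h2
          simp only [h1, h3, if_false, if_true, ← hvd, hxs, inv_inv]
      · have hxP := hplain x hx h1
        obtain ⟨h2, h3⟩ := hμ x hx
        by_cases h4 : μ' x.name = n
        · have h5 : μ' x.name ≠ x.name := by rw [h4]; exact Ne.symm h1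
          rw [partner_ne h5] at h3 ⊢
          have h6 : x.pos = !s := by
            rcases h3 with h3 | h3
            · exact absurd h4 (hn _ h3)
            · have := h3.2
              simp only at this
              rw [← this, Bool.not_not]
          have h7 : μ' n = x.name := by rw [← h4, h2]
          have h8 : μ' n ≠ n := by rw [h7]; exact h1
          simp only [h4, if_true, h1, if_false, ← hvd, h8]
          rw [h7, ← h6]
        · have h5 : (partner μ' x).name ≠ n := by rw [partner_name]; exact h4
          simp only [h5, if_false, h1]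
          have h6 := hℓ x hxP
          rwa [partner_congr (μ' := μ') (by simp [h4])] at h6
    · intro x hx
      simp [hn x hx]
    · intro o
      simp only [if_true]
      rw [hv o, mul_inv_cancel]

theorem extend2 {P : End → Prop} {n m : ℕ} {s : Bool} {μ' : ℕ → ℕ} (hnm : n ≠ m)
    (hn : ∀ x, P x → x.name ≠ n ∧ x.name ≠ m) (hf : ∀ x, P x → P x.flip)
    (hμ : Valid μ' (fun x => P x ∨ (x.name = n ∧ x.pos = s) ∨ (x.name = m ∧ x.pos = !s))) :
    ∃ μ : ℕ → ℕ, Valid μ P ∧
      ∀ (G : Type) [Group G] (ℓ : End → G), Compat μ P ℓ → ∃ ℓ' : End → G,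
        Compat μ' (fun x => P x ∨ (x.name = n ∧ x.pos = s) ∨ (x.name = m ∧ x.pos = !s)) ℓ' ∧
        (∀ x, P x → ℓ' x = ℓ x) ∧ ∀ o, ℓ' ⟨n, o, s⟩ * ℓ' ⟨m, o, !s⟩ = 1 := by
  have hplain : ∀ x, (P x ∨ (x.name = n ∧ x.pos = s) ∨ (x.name = m ∧ x.pos = !s)) →
      x.name ≠ n → x.name ≠ m → P x := by
    rintro x (h | ⟨h, -⟩ | ⟨h, -⟩) h' h''
    · exact h
    · exact absurd h h'
    · exact absurd h h''
  have en : ∀ o, (fun x : End => P x ∨ (x.name = n ∧ x.pos = s) ∨ (x.name = m ∧ x.pos = !s))
      ⟨n, o, s⟩ := fun o => Or.inr (Or.inl ⟨rfl, rfl⟩)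
  have em : ∀ o, (fun x : End => P x ∨ (x.name = n ∧ x.pos = s) ∨ (x.name = m ∧ x.pos = !s))
      ⟨m, o, !s⟩ := fun o => Or.inr (Or.inr ⟨rfl, rfl⟩)
  have hin : μ' (μ' n) = n := (hμ _ (en true)).1
  have him : μ' (μ' m) = m := (hμ _ (em true)).1
  -- the new matching of names
  obtain ⟨μ, hμd⟩ : ∃ μ : ℕ → ℕ, μ = fun p =>
      if μ' p = n then (if μ' m = m then p else μ' m)
      else if μ' p = m then (if μ' n = n then p else μ' n) else μ' p := ⟨_, rfl⟩
  have mu1 : ∀ p, μ' p ≠ n → μ' p ≠ m → μ p = μ' p := by
    intro p h1 h2; rw [hμd]; simp [h1, h2]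
  have mu2 : ∀ p, μ' p = n → μ' m = m → μ p = p := by
    intro p h1 h2; rw [hμd]; simp [h1, h2]
  have mu3 : ∀ p, μ' p = n → μ' m ≠ m → μ p = μ' m := by
    intro p h1 h2; rw [hμd]; simp [h1, h2]
  have mu4 : ∀ p, μ' p = m → μ' n = n → μ p = p := by
    intro p h1 h2; rw [hμd]; simp [h1, h2, Ne.symm hnm]
  have mu5 : ∀ p, μ' p = m → μ' n ≠ n → μ p = μ' n := by
    intro p h1 h2; rw [hμd]; simp [h1, h2, Ne.symm hnm]
  clear hμd
  -- partners of the ends of the two crossings
  have hpn : μ' n ≠ n → μ' n ≠ m → ∀ o, P ⟨μ' n, o, !s⟩ := by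
    intro h h' o
    have h1 := (hμ _ (en o)).2
    rw [partner_ne (by simpa using h)] at h1
    exact hplain _ h1 (by simpa using h) (by simpa using h')
  have hpm : μ' m ≠ n → μ' m ≠ m → ∀ o, P ⟨μ' m, o, s⟩ := by
    intro h h' o
    have h1 := (hμ _ (em o)).2
    have h2 : partner μ' ⟨m, o, !s⟩ = ⟨μ' m, o, s⟩ := by
      rw [partner_ne (by simpa using h')]
      simp
    rw [h2] at h1
    exact hplain _ h1 (by simpa using h) (by simpa using h')
  -- a plain end whose old partner belongs to one of the two crossings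
  have qn : ∀ x, P x → μ' x.name = n → x.name = μ' n ∧ x.pos = (!s) := by
    intro x hx h
    obtain ⟨h2, h3⟩ := hμ x (Or.inl hx)
    have h5 : μ' x.name ≠ x.name := by rw [h]; exact Ne.symm (hn x hx).1
    rw [partner_ne h5] at h3
    refine ⟨by rw [← h, h2], ?_⟩
    rcases h3 with h3 | h3 | h3
    · exact absurd h (hn _ h3).1
    · have := h3.2
      simp only at this
      rw [← this, Bool.not_not]
    · have := h3.1
      simp only at this
      exact absurd (h.symm.trans this) hnm
  have qm : ∀ x, P x → μ' x.name = m → x.name = μ' m ∧ x.pos = s := by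
    intro x hx h
    obtain ⟨h2, h3⟩ := hμ x (Or.inl hx)
    have h5 : μ' x.name ≠ x.name := by rw [h]; exact Ne.symm (hn x hx).2
    rw [partner_ne h5] at h3
    refine ⟨by rw [← h, h2], ?_⟩
    rcases h3 with h3 | h3 | h3
    · exact absurd h (hn _ h3).2
    · have := h3.1
      simp only at this
      exact absurd (this.symm.trans h) hnm
    · have := h3.2
      simpa using this
  refine ⟨μ, ?_, ?_⟩
  · intro x hx
    obtain ⟨h1, h1'⟩ := hn x hx
    obtain ⟨h2, h3⟩ := hμ x (Or.inl hx)
    by_cases h4 : μ' x.name = n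
    · obtain ⟨q1, q2⟩ := qn x hx h4
      by_cases h5 : μ' m = m
      · have h6 := mu2 _ h4 h5
        rw [partner_self h6, h6]
        exact ⟨h6, hf x hx⟩
      · have h6 := mu3 _ h4 h5
        have h7 : μ' m ≠ n := by
          intro h7
          rw [h7] at him
          rw [him] at q1
          exact h1' q1
        have h8 : μ' m ≠ x.name := by
          intro h8
          rw [h8] at him
          rw [h4] at him
          exact hnm him
        have h9 : μ' n ≠ n := by rw [← q1]; exact h1
        refine ⟨?_, ?_⟩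
        · rw [h6, mu5 _ him h9, ← q1]
        · rw [partner_ne (by rw [h6]; exact h8), h6]
          have := hpm h7 h5 x.top
          rw [q2, Bool.not_not]
          exact this
    · by_cases h4' : μ' x.name = m
      · obtain ⟨q1, q2⟩ := qm x hx h4'
        by_cases h5 : μ' n = n
        · have h6 := mu4 _ h4' h5
          rw [partner_self h6, h6]
          exact ⟨h6, hf x hx⟩
        · have h6 := mu5 _ h4' h5
          have h7 : μ' n ≠ m := by
            intro h7
            rw [h7] at hin
            rw [hin] at q1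
            exact h1 q1
          have h8 : μ' n ≠ x.name := by
            intro h8
            rw [h8] at hin
            rw [h4'] at hin
            exact hnm hin.symm
          have h9 : μ' m ≠ m := by rw [← q1]; exact h1'
          refine ⟨?_, ?_⟩
          · rw [h6, mu3 _ hin h9, ← q1]
          · rw [partner_ne (by rw [h6]; exact h8), h6]
            have := hpn h5 h7 x.top
            rw [q2]
            exact this
      · have h6 := mu1 _ h4 h4'
        refine ⟨?_, ?_⟩
        · rw [h6, mu1 _ (by rw [h2]; exact h1) (by rw [h2]; exact h1'), h2]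
        · rw [partner_congr h6]
          refine hplain _ h3 ?_ ?_
          · rw [partner_name]; exact h4
          · rw [partner_name]; exact h4'
  · intro G _ ℓ hℓ
    obtain ⟨v, hvd⟩ : ∃ v : Bool → G, v = fun o =>
        if μ' n ≠ n ∧ μ' n ≠ m then (ℓ ⟨μ' n, o, !s⟩)⁻¹
        else if μ' m ≠ n ∧ μ' m ≠ m then ℓ ⟨μ' m, o, s⟩ else 1 := ⟨_, rfl⟩
    have vA : μ' n ≠ n → μ' n ≠ m → ∀ o, v o = (ℓ ⟨μ' n, o, !s⟩)⁻¹ := by
      intro h h' o; rw [hvd]; simp [h, h']
    have vB : μ' m ≠ n → μ' m ≠ m → ∀ o, v o = ℓ ⟨μ' m, o, s⟩ := by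
      intro h h' o
      by_cases h1 : μ' n ≠ n ∧ μ' n ≠ m
      · rw [vA h1.1 h1.2]
        have h2 := hℓ _ (hpn h1.1 h1.2 o)
        have h3 : μ (μ' n) = μ' m := mu3 _ hin h'
        rw [partner_ne] at h2
        · simp only [h3, Bool.not_not] at h2
          rw [h2]
        · simp only [h3]
          intro h4
          rw [h4] at him
          rw [hin] at him
          exact hnm him
      · rw [hvd]; simp only [h1, if_false]; simp [h, h']
    have vC : μ' n = n ∨ μ' m = m → ∀ o, v (!o) = (v o)⁻¹ := by
      rintro (h | h) o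
      · by_cases h1 : μ' m = m
        · rw [hvd]; simp [h, h1]
        · have h2 : μ' m ≠ n := by
            intro h2; rw [h2, h] at him; exact hnm him
          rw [vB h2 h1, vB h2 h1]
          have h3 := hℓ _ (hpm h2 h1 o)
          rw [partner_self (mu4 _ him h)] at h3
          exact h3
      · by_cases h1 : μ' n = n
        · rw [hvd]; simp [h, h1]
        · have h2 : μ' n ≠ m := by
            intro h2; rw [h2, h] at hin; exact hnm hin.symm
          rw [vA h1 h2, vA h1 h2]
          have h3 := hℓ _ (hpn h1 h2 o)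
          rw [partner_self (mu2 _ hin h)] at h3
          simp only [End.flip] at h3
          rw [h3]
    refine ⟨fun x => if x.name = n then v x.top else if x.name = m then (v x.top)⁻¹ else ℓ x,
      ?_, ?_, ?_⟩
    · rintro x hx
      by_cases h1 : x.name = n
      · have hxs : x.pos = s := by
          rcases hx with hx | hx | hx
          · exact absurd h1 (hn x hx).1
          · exact hx.2
          · exact absurd (h1.symm.trans hx.1) hnm
        by_cases h2 : μ' n = n
        · rw [partner_self (by rw [h1, h2])]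
          simp only [End.flip, h1, if_true]
          exact vC (Or.inl h2) _
        · rw [partner_ne (by rw [h1]; exact h2)]
          by_cases h3 : μ' n = m
          · simp only [h1, h3, if_true, Ne.symm hnm, if_false]
          · simp only [h1, h2, h3, if_false, if_true]
            rw [vA h2 h3, hxs, inv_inv]
      · by_cases h1' : x.name = m
        · have hxs : x.pos = !s := by
            rcases hx with hx | hx | hx
            · exact absurd h1' (hn x hx).2
            · exact absurd hx.1 h1
            · exact hx.2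
          by_cases h2 : μ' m = m
          · rw [partner_self (by rw [h1', h2])]
            simp only [End.flip, h1', if_true, Ne.symm hnm, if_false]
            rw [vC (Or.inr h2)]
          · rw [partner_ne (by rw [h1']; exact h2)]
            by_cases h3 : μ' m = n
            · simp only [h1', h3, if_true, Ne.symm hnm, if_false, inv_inv]
            · simp only [h1', h2, h3, if_false, if_true, Ne.symm hnm, inv_inv]
              rw [vB h3 h2, hxs, Bool.not_not]
        · have hxP := hplain x hx h1 h1'
          obtain ⟨h2, h3⟩ := hμ x hx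
          by_cases h4 : μ' x.name = n
          · obtain ⟨q1, q2⟩ := qn x hxP h4
            have h5 : μ' x.name ≠ x.name := by rw [h4]; exact Ne.symm h1
            rw [partner_ne h5]
            simp only [h4, if_true, h1, h1', if_false]
            rw [vA (by rw [← q1]; exact h1) (by rw [← q1]; exact h1'), ← q1, ← q2]
          · by_cases h4' : μ' x.name = m
            · obtain ⟨q1, q2⟩ := qm x hxP h4'
              have h5 : μ' x.name ≠ x.name := by rw [h4']; exact Ne.symm h1'
              rw [partner_ne h5]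
              simp only [h4', if_true, h1, h1', if_false, Ne.symm hnm]
              rw [vB (by rw [← q1]; exact h1) (by rw [← q1]; exact h1'), ← q1, ← q2]
            · have h5 : (partner μ' x).name ≠ n := by rw [partner_name]; exact h4
              have h5' : (partner μ' x).name ≠ m := by rw [partner_name]; exact h4'
              simp only [h5, h5', if_false, h1, h1']
              have h6 := hℓ x hxP
              rwa [partner_congr (mu1 _ h4 h4')] at h6
    · intro x hx
      simp [(hn x hx).1, (hn x hx).2]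
    · intro o
      simp only [if_true, Ne.symm hnm, if_false]
      rw [mul_inv_cancel]

/-! ### Ends of diagrams and patterns -/

theorem mem_ends {L : Link} {e : End} : e ∈ ends L ↔ ∃ c ∈ L, e ∈ c.2 := by
  simp only [ends, Multiset.mem_bind, Multiset.mem_coe]

theorem ends_cons (c : ℕ × List End) (L : Link) : ends (c ::ₘ L) = (c.2 : Multiset End) + ends L := by
  simp only [ends, Multiset.cons_bind]

theorem ends_zero : ends 0 = 0 := rfl

/-- All letters of a pattern. -/
def letters {k : ℕ} (C : Pattern k) : Multiset (End ⊕ Fin k) :=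
  C.bind fun c => (c.2 : Multiset (End ⊕ Fin k))

theorem ends_fill {k : ℕ} (f : Fin k → List End) (C : Pattern k) :
    ends (fill f C) =
      (letters C).bind fun x => ((Sum.elim (fun e => [e]) f x : List End) : Multiset End) := by
  induction C using Multiset.induction_on with
  | empty => rfl
  | cons c C ih =>
    have h1 : fill f (c ::ₘ C) = (c.1, c.2.flatMap (Sum.elim (fun e => [e]) f)) ::ₘ fill f C := by
      simp only [fill, Multiset.map_cons]
    have h2 : letters (c ::ₘ C) = (c.2 : Multiset (End ⊕ Fin k)) + letters C := by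
      simp only [letters, Multiset.cons_bind]
    rw [h1, h2, ends_cons, Multiset.add_bind, ih, Multiset.coe_bind]

theorem mem_letters {k : ℕ} {C : Pattern k} (hC : C.Once) (i : Fin k) :
    Sum.inr i ∈ letters C := by
  have := hC i
  apply Multiset.count_pos.1
  unfold letters
  rw [this]; exact one_pos

theorem mem_ends_fill {k : ℕ} {f : Fin k → List End} {C : Pattern k} (hC : C.Once) {e : End} :
    e ∈ ends (fill f C) ↔ Sum.inl e ∈ letters C ∨ ∃ i, e ∈ f i := by
  rw [ends_fill, Multiset.mem_bind]
  constructor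
  · rintro ⟨x, hx, he⟩
    rcases x with x | i
    · left
      have : e = x := by simpa using he
      rw [this]; exact hx
    · right; exact ⟨i, by simpa using he⟩
  · rintro (h | ⟨i, hi⟩)
    · exact ⟨_, h, by simp⟩
    · exact ⟨_, mem_letters hC i, by simpa using hi⟩

theorem not_mem_gap {k : ℕ} {f : Fin k → List End} {C : Pattern k} (hC : C.Once)
    (hd : (ends (fill f C)).Nodup) {e : End} (he : Sum.inl e ∈ letters C) (i : Fin k) :
    e ∉ f i := by
  intro hi
  rw [ends_fill] at hd
  obtain ⟨M, hM⟩ := Multiset.exists_cons_of_mem he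
  have h1 : (Sum.inr i : End ⊕ Fin k) ∈ M := by
    have := mem_letters hC i
    rw [hM, Multiset.mem_cons] at this
    rcases this with h | h
    · cases h
    · exact h
  rw [hM, Multiset.cons_bind] at hd
  have h2 := (Multiset.nodup_add.1 hd).2.2
  have h3 : e ∈ M.bind fun x => ((Sum.elim (fun e => [e]) f x : List End) : Multiset End) :=
    Multiset.mem_bind.2 ⟨_, h1, by simpa using hi⟩
  exact Multiset.disjoint_left.1 h2 (by simp) h3

theorem vals_fill {G : Type} [Group G] {k : ℕ} {f g : Fin k → List End} {C : Pattern k}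
    {ℓ ℓ' : End → G} (h1 : ∀ e, Sum.inl e ∈ letters C → ℓ e = ℓ' e)
    (h2 : ∀ i, ev ℓ (f i) = ev ℓ' (g i)) (r : ℕ) :
    vals ℓ (fill f C) r = vals ℓ' (fill g C) r := by
  have key : ∀ w : List (End ⊕ Fin k), (∀ x ∈ w, x ∈ letters C) →
      ev ℓ (w.flatMap (Sum.elim (fun e => [e]) f)) =
        ev ℓ' (w.flatMap (Sum.elim (fun e => [e]) g)) := by
    intro w
    induction w with
    | nil => intro _; simp [ev_nil]
    | cons x w ih =>
      intro hw
      rw [List.flatMap_cons, List.flatMap_cons, ev_append, ev_append,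
        ih fun y hy => hw y (List.mem_cons_of_mem _ hy)]
      congr 1
      rcases x with x | i
      · simp only [Sum.elim_inl, ev_cons, ev_nil, mul_one]
        exact h1 x (hw _ (List.mem_cons_self ..))
      · simp only [Sum.elim_inr]
        exact h2 i
  unfold vals fill
  rw [Multiset.filter_map, Multiset.filter_map, Multiset.map_map, Multiset.map_map]
  refine Multiset.map_congr rfl fun c hc => ?_
  simp only [Function.comp]
  refine key _ fun x hx => ?_
  unfold letters
  rw [Multiset.mem_bind]
  exact ⟨c, (Multiset.mem_filter.1 hc).1, hx⟩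

/-! ### The property carried backwards along a movie -/

/-- There is a matching of the crossings such that every labelling of the ends by elements of a
group, inverse on matched ends, has the property that all products of conjugates of the circles of
one label are trivial as soon as, for all other labels, one such product is. -/
def Good (S : Link) : Prop :=
  ∃ μ : ℕ → ℕ, Valid μ (fun x => x ∈ ends S) ∧
    ∀ (G : Type) [Group G] (ℓ : End → G), Compat μ (fun x => x ∈ ends S) ℓ →
      ∀ k, Hyp ℓ S k → k = 1

theorem Good.same {S S' : Link} (h : Good S') (he : ∀ x, x ∈ ends S ↔ x ∈ ends S')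
    (hh : ∀ (G : Type) [Group G] (ℓ : End → G) (k : G), Hyp ℓ S k → Hyp ℓ S' k) : Good S := by
  obtain ⟨μ, h1, h2⟩ := h
  have e : (fun x => x ∈ ends S) = (fun x => x ∈ ends S') := funext fun x => propext (he x)
  refine ⟨μ, by rw [e]; exact h1, ?_⟩
  intro G _ ℓ hℓ k hk
  rw [e] at hℓ
  exact h2 G ℓ hℓ k (hh G ℓ k hk)

/-- The two ends of a crossing of a diagram, in terms of its name and sign. -/
theorem same_crossing {S : Link} (hS : IsDiagram S) {e x : End} (he : e ∈ ends S)
    (hx : x ∈ ends S) (h : x.name = e.name) : x = e ∨ x = e.flip :=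
  hS.2.2 e he x hx h.symm

theorem r1_ends {e : End} {C : Pattern 1} (hC : C.Once)
    (hS : IsDiagram (fill ![[e, e.flip]] C)) :
    (∀ x, x ∈ ends (fill ![[]] C) → x.name ≠ e.name) ∧
    ∀ x, x ∈ ends (fill ![[e, e.flip]] C) ↔
      (x ∈ ends (fill ![[]] C) ∨ (x.name = e.name ∧ x.pos = e.pos)) := by
  have h0 : ∀ x, x ∈ ends (fill ![[]] C) ↔ Sum.inl x ∈ letters C := by
    intro x
    rw [mem_ends_fill hC]
    simp
  have h1 : ∀ x, x ∈ ends (fill ![[e, e.flip]] C) ↔
      (Sum.inl x ∈ letters C ∨ x = e ∨ x = e.flip) := by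
    intro x
    rw [mem_ends_fill hC]
    simp
  have he : e ∈ ends (fill ![[e, e.flip]] C) := (h1 e).2 (Or.inr (Or.inl rfl))
  refine ⟨?_, ?_⟩
  · intro x hx hn
    rw [h0] at hx
    have h2 := not_mem_gap hC hS.1 hx 0
    have h3 := same_crossing hS he ((h1 x).2 (Or.inl hx)) hn
    apply h2
    simpa using h3
  · intro x
    rw [h0, h1]
    refine or_congr_right ⟨?_, ?_⟩
    · rintro (rfl | rfl)
      · exact ⟨rfl, rfl⟩
      · exact ⟨rfl, rfl⟩
    · rintro ⟨h2, h3⟩
      rcases x with ⟨n, t, s⟩
      rcases e with ⟨n', t', s'⟩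
      simp only at h2 h3
      subst h2 h3
      rcases Bool.eq_or_eq_not t t' with h | h
      · left; rw [h]
      · right; simp [End.flip, h]

theorem mem_order {t : Bool} {x y z : End} : z ∈ order t x y ↔ z = x ∨ z = y := by
  unfold order
  cases t
  · simp [or_comm]
  · simp

theorem r2_ends {a b : End} {t : Bool} (hk : a.top = b.top) (hs : a.pos = !b.pos)
    {C : Pattern 2} (hC : C.Once) (hS : IsDiagram (fill ![[a, b], order t a.flip b.flip] C)) :
    a.name ≠ b.name ∧
    (∀ x, x ∈ ends (fill ![[], []] C) → x.name ≠ a.name ∧ x.name ≠ b.name) ∧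
    ∀ x, x ∈ ends (fill ![[a, b], order t a.flip b.flip] C) ↔
      (x ∈ ends (fill ![[], []] C) ∨ (x.name = a.name ∧ x.pos = a.pos) ∨
        (x.name = b.name ∧ x.pos = !a.pos)) := by
  have h0 : ∀ x, x ∈ ends (fill ![[], []] C) ↔ Sum.inl x ∈ letters C := by
    intro x
    rw [mem_ends_fill hC]
    simp
  have h1 : ∀ x, x ∈ ends (fill ![[a, b], order t a.flip b.flip] C) ↔
      (Sum.inl x ∈ letters C ∨ (x = a ∨ x = a.flip) ∨ (x = b ∨ x = b.flip)) := by
    intro x
    rw [mem_ends_fill hC, Fin.exists_fin_two]
    simp only [Matrix.cons_val_zero, Matrix.cons_val_one, mem_order]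
    simp only [List.mem_cons, List.not_mem_nil, or_false]
    tauto
  have ha : a ∈ ends (fill ![[a, b], order t a.flip b.flip] C) := (h1 a).2 (by simp)
  have hb : b ∈ ends (fill ![[a, b], order t a.flip b.flip] C) := (h1 b).2 (by simp)
  have hcr : ∀ e x : End, (x = e ∨ x = e.flip) ↔ (x.name = e.name ∧ x.pos = e.pos) := by
    intro e x
    constructor
    · rintro (rfl | rfl)
      · exact ⟨rfl, rfl⟩
      · exact ⟨rfl, rfl⟩
    · rintro ⟨h2, h3⟩
      rcases x with ⟨n, t, s⟩
      rcases e with ⟨n', t', s'⟩
      simp only at h2 h3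
      subst h2 h3
      rcases Bool.eq_or_eq_not t t' with h | h
      · left; rw [h]
      · right; simp [End.flip, h]
  refine ⟨?_, ?_, ?_⟩
  · intro h
    rcases same_crossing hS ha hb h.symm with h2 | h2
    · rw [h2] at hs
      simp at hs
    · rw [h2] at hk
      simp [End.flip] at hk
  · intro x hx
    rw [h0] at hx
    have h2 := not_mem_gap hC hS.1 hx 0
    have h3 := not_mem_gap hC hS.1 hx 1
    simp only [Matrix.cons_val_zero, Matrix.cons_val_one, mem_order] at h2 h3
    simp only [List.mem_cons, List.not_mem_nil, or_false] at h2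
    constructor
    · intro hn
      have h4 := same_crossing hS ha ((h1 x).2 (Or.inl hx)) hn
      tauto
    · intro hn
      have h4 := same_crossing hS hb ((h1 x).2 (Or.inl hx)) hn
      tauto
  · intro x
    rw [h0, h1, hcr, hcr, hs, Bool.not_not]

theorem Good.r1del {e : End} {C : Pattern 1} (hC : C.Once)
    (hS : IsDiagram (fill ![[e, e.flip]] C)) (h : Good (fill ![[]] C)) :
    Good (fill ![[e, e.flip]] C) := by
  obtain ⟨hn, hE⟩ := r1_ends hC hS
  obtain ⟨μ', h1, h2⟩ := h
  obtain ⟨μ, h3, h4⟩ := restrict1 (s := e.pos) hn h1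
  have hE' := funext fun x => propext (hE x)
  rw [← hE'] at h3
  refine ⟨μ, h3, ?_⟩
  intro G _ ℓ hℓ k hk
  rw [hE'] at hℓ
  obtain ⟨h5, h6⟩ := h4 G ℓ hℓ
  refine h2 G ℓ h5 k (hk.mono fun i x hx => ?_)
  rwa [vals_fill (g := ![[]]) (ℓ' := ℓ) (fun _ _ => rfl)] at hx
  intro i
  fin_cases i
  simp only [Fin.zero_eta, Matrix.cons_val_zero, ev_cons, ev_nil, mul_one]
  exact h6 e.top

theorem Good.r1add {e : End} {C : Pattern 1} (hC : C.Once)
    (hS : IsDiagram (fill ![[e, e.flip]] C)) (hS' : IsDiagram (fill ![[]] C))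
    (h : Good (fill ![[e, e.flip]] C)) : Good (fill ![[]] C) := by
  obtain ⟨hn, hE⟩ := r1_ends hC hS
  obtain ⟨μ', h1, h2⟩ := h
  have hE' := funext fun x => propext (hE x)
  rw [hE'] at h1
  obtain ⟨μ, h3, h4⟩ := extend1 (s := e.pos) hn hS'.2.1 h1
  refine ⟨μ, h3, ?_⟩
  intro G _ ℓ hℓ k hk
  obtain ⟨ℓ', h5, h6, h7⟩ := h4 G ℓ hℓ
  rw [← hE'] at h5
  refine h2 G ℓ' h5 k (hk.mono fun i x hx => ?_)
  rwa [vals_fill (g := ![[e, e.flip]]) (ℓ' := ℓ')] at hx
  · intro x hx
    refine (h6 x ?_).symm
    rw [mem_ends_fill hC]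
    exact Or.inl hx
  · intro i
    fin_cases i
    simp only [Fin.zero_eta, Matrix.cons_val_zero, ev_cons, ev_nil, mul_one]
    exact (h7 e.top).symm

theorem ev_order {G : Type} [Group G] {ℓ : End → G} {t : Bool} {x y : End}
    (h : ℓ x * ℓ y = 1) : ev ℓ (order t x y) = 1 := by
  unfold order
  cases t
  · simp only [Bool.false_eq_true, if_false, ev_cons, ev_nil, mul_one]
    exact mul_eq_one_comm.1 h
  · simp only [if_true, ev_cons, ev_nil, mul_one]
    exact h

theorem Good.r2del {a b : End} {t : Bool} (hk : a.top = b.top) (hs : a.pos = !b.pos)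
    {C : Pattern 2} (hC : C.Once) (hS : IsDiagram (fill ![[a, b], order t a.flip b.flip] C))
    (h : Good (fill ![[], []] C)) :
    Good (fill ![[a, b], order t a.flip b.flip] C) := by
  obtain ⟨hab, hn, hE⟩ := r2_ends hk hs hC hS
  obtain ⟨μ', h1, h2⟩ := h
  obtain ⟨μ, h3, h4⟩ := restrict2 (s := a.pos) hab hn h1
  have hE' := funext fun x => propext (hE x)
  rw [← hE'] at h3
  refine ⟨μ, h3, ?_⟩
  intro G _ ℓ hℓ k hk'
  rw [hE'] at hℓ
  obtain ⟨h5, h6⟩ := h4 G ℓ hℓ
  have eb : ∀ o, (⟨b.name, o, !a.pos⟩ : End) = ⟨b.name, o, b.pos⟩ := by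
    intro o; rw [hs, Bool.not_not]
  have eb' : (⟨b.name, a.top, !a.pos⟩ : End) = b := by
    rw [hk, eb]
  refine h2 G ℓ h5 k (hk'.mono fun i x hx => ?_)
  rwa [vals_fill (g := ![[], []]) (ℓ' := ℓ) (fun _ _ => rfl)] at hx
  intro i
  fin_cases i
  · simp only [Fin.zero_eta, Matrix.cons_val_zero, ev_cons, ev_nil, mul_one]
    have := h6 a.top
    rw [eb'] at this
    exact this
  · simp only [Fin.mk_one, Matrix.cons_val_one]
    apply ev_order
    have := h6 (!a.top)
    rw [eb] at this
    simp only [End.flip]
    rw [← hk]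
    exact this

theorem Good.r2add {a b : End} {t : Bool} (hk : a.top = b.top) (hs : a.pos = !b.pos)
    {C : Pattern 2} (hC : C.Once) (hS : IsDiagram (fill ![[a, b], order t a.flip b.flip] C))
    (hS' : IsDiagram (fill ![[], []] C))
    (h : Good (fill ![[a, b], order t a.flip b.flip] C)) : Good (fill ![[], []] C) := by
  obtain ⟨hab, hn, hE⟩ := r2_ends hk hs hC hS
  obtain ⟨μ', h1, h2⟩ := h
  have hE' := funext fun x => propext (hE x)
  rw [hE'] at h1
  obtain ⟨μ, h3, h4⟩ := extend2 (s := a.pos) hab hn hS'.2.1 h1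
  refine ⟨μ, h3, ?_⟩
  intro G _ ℓ hℓ k hk'
  obtain ⟨ℓ', h5, h6, h7⟩ := h4 G ℓ hℓ
  rw [← hE'] at h5
  have eb : ∀ o, (⟨b.name, o, !a.pos⟩ : End) = ⟨b.name, o, b.pos⟩ := by
    intro o; rw [hs, Bool.not_not]
  have eb' : (⟨b.name, a.top, !a.pos⟩ : End) = b := by
    rw [hk, eb]
  refine h2 G ℓ' h5 k (hk'.mono fun i x hx => ?_)
  rwa [vals_fill (g := ![[a, b], order t a.flip b.flip]) (ℓ' := ℓ')] at hx
  · intro x hx
    refine (h6 x ?_).symm
    rw [mem_ends_fill hC]
    exact Or.inl hx
  · intro i
    fin_cases i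
    · simp only [Fin.zero_eta, Matrix.cons_val_zero, ev_cons, ev_nil, mul_one]
      have := h7 a.top
      rw [eb'] at this
      exact this.symm
    · simp only [Fin.mk_one, Matrix.cons_val_one]
      symm
      apply ev_order
      have := h7 (!a.top)
      rw [eb] at this
      simp only [End.flip]
      rw [← hk]
      exact this

theorem mem_ends_cons {c : ℕ × List End} {L : Link} {x : End} :
    x ∈ ends (c ::ₘ L) ↔ x ∈ c.2 ∨ x ∈ ends L := by
  rw [ends_cons, Multiset.mem_add, Multiset.mem_coe]

theorem mem_ends_relabel {L : Link} {g : ℕ × List End → ℕ} {x : End} :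
    x ∈ ends (L.map fun c => (g c, c.2)) ↔ x ∈ ends L := by
  simp only [mem_ends, Multiset.mem_map]
  constructor
  · rintro ⟨_, ⟨c, hc, rfl⟩, hx⟩
    exact ⟨c, hc, hx⟩
  · rintro ⟨c, hc, hx⟩
    exact ⟨_, ⟨c, hc, rfl⟩, hx⟩

theorem Good.zero : Good 0 := by
  refine ⟨id, ?_, ?_⟩
  · intro x hx
    exact absurd hx (by simp [ends])
  · intro G _ ℓ _ k hk
    obtain ⟨r, h, -⟩ := hk
    exact h.zero (vals_zero ℓ r)

theorem good_step {m : Kind} {S T : Link} (h : Step m S T) (hm : m ≠ Kind.r3)
    (hS : IsDiagram S) (hT : IsDiagram T) (hg : Good T) : Good S := by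
  induction h with
  | rotate i u v R =>
    refine hg.same (fun x => ?_) fun G _ ℓ k hk => hk.rotate
    simp only [mem_ends_cons, List.mem_append]
    tauto
  | r1del e C hC => exact Good.r1del hC hS hg
  | r1add e C hC => exact Good.r1add hC hT hS hg
  | r2del a b t hk hs C hC => exact Good.r2del hk hs hC hS hg
  | r2add a b t hk hs C hC => exact Good.r2add hk hs hC hT hS hg
  | r3 => exact absurd rfl hm
  | birth i R hi =>
    refine hg.same (fun x => ?_) fun G _ ℓ k hk => hk.birth
    simp [mem_ends_cons]
  | death i R =>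
    refine hg.same (fun x => ?_) fun G _ ℓ k hk => hk.death
    simp [mem_ends_cons]
  | split i u v R =>
    refine hg.same (fun x => ?_) fun G _ ℓ k hk => hk.split
    simp only [mem_ends_cons, List.mem_append]
    tauto
  | merge i j u v R hij =>
    refine hg.same (fun x => ?_) fun G _ ℓ k hk => hk.merge hij
    rw [mem_ends_relabel]
    simp only [mem_ends_cons, List.mem_append]
    tauto

theorem good_of_movie {L : Link} (h : Movie {m | m ≠ Kind.r3} L 0) : Good L := by
  unfold Movie at h
  induction h using Relation.ReflTransGen.head_induction_on with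
  | refl => exact Good.zero
  | head h' _ ih =>
    obtain ⟨hS, hT, m, hm, hst⟩ := h'
    exact good_step hst hm hS hT ih

/-! ### Connected schema: every circle is trivial -/

/-- The word `w` has value `1` under all labellings compatible with the matching. -/
def Triv (μ : ℕ → ℕ) (P : End → Prop) (w : List End) : Prop :=
  ∀ (G : Type) [Group G] (ℓ : End → G), Compat μ P ℓ → ev ℓ w = 1

/-- The action of `G` on itself by left multiplication, extended by a fixed point. -/
def act {G : Type} [Group G] (g : G) : Equiv.Perm (Option G) :=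
  Equiv.optionCongr (Equiv.mulLeft g)

theorem act_mul {G : Type} [Group G] (g h : G) : act (g * h) = act g * act h := by
  ext x
  cases x <;> simp [act, mul_assoc]

theorem act_one {G : Type} [Group G] : act (1 : G) = 1 := by
  ext x
  cases x <;> simp [act]

theorem act_inv {G : Type} [Group G] (g : G) : act g⁻¹ = (act g)⁻¹ := by
  rw [eq_inv_iff_mul_eq_one, ← act_mul, inv_mul_cancel, act_one]

theorem ev_act {G : Type} [Group G] (ℓ : End → G) (w : List End) :
    ev (fun x => act (ℓ x)) w = act (ev ℓ w) := by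
  induction w with
  | nil => rw [ev_nil, ev_nil, act_one]
  | cons e w ih => rw [ev_cons, ev_cons, ih, act_mul]

theorem Pr.one_exists {G : Type} [Group G] (M : Multiset G) : ∃ k, Pr M k := by
  induction M using Multiset.induction_on with
  | empty => exact ⟨1, Pr.nil⟩
  | cons a M ih =>
    obtain ⟨k, hk⟩ := ih
    exact ⟨_, Pr.cons 1 a M k hk⟩

theorem triv_of_good {L : Link} (h0 : ∀ c ∈ L, c.1 = 0) (h : Good L) :
    ∃ μ : ℕ → ℕ, Valid μ (fun x => x ∈ ends L) ∧
      ∀ c ∈ L, Triv μ (fun x => x ∈ ends L) c.2 := by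
  classical
  obtain ⟨μ, h1, h2⟩ := h
  refine ⟨μ, h1, ?_⟩
  intro c hc G _ ℓ hℓ
  -- pass to a group in which no nontrivial element of `G` is central
  have h3 : Compat μ (fun x => x ∈ ends L) (fun x => act (ℓ x)) := by
    intro x hx
    simp only
    rw [hℓ x hx, act_inv]
  obtain ⟨L', rfl⟩ := Multiset.exists_cons_of_mem hc
  have hc0 : c.1 = 0 := h0 c (Multiset.mem_cons_self ..)
  have h4 : ∀ i, i ≠ 0 → vals (fun x => act (ℓ x)) (c ::ₘ L') i = 0 := by
    intro i hi
    unfold vals
    rw [Multiset.map_eq_zero, Multiset.filter_eq_nil]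
    intro d hd h
    exact hi (h.symm.trans (h0 d hd))
  obtain ⟨k, hk⟩ := Pr.one_exists (vals (fun x => act (ℓ x)) L' 0)
  have h5 : ∀ x : Equiv.Perm (Option G), x * act (ev ℓ c.2) * x⁻¹ * k = 1 := by
    intro x
    apply h2 _ _ h3
    refine ⟨0, ?_, fun i hi => ?_⟩
    · rw [vals_cons, if_pos hc0, ev_act]
      exact Pr.cons _ _ _ _ hk
    · rw [h4 i hi]; exact Pr.nil
  have h6 := h5 1
  have h7 := h5 (Equiv.swap none (some 1))
  rw [← h6] at h7
  have h8 := mul_right_cancel h7
  simp only [one_mul, inv_one, mul_one] at h8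
  rw [Equiv.swap_inv] at h8
  have h9 := congrArg (fun p : Equiv.Perm (Option G) => p none) h8
  simp only [Equiv.Perm.mul_apply, Equiv.swap_apply_left] at h9
  simp only [act, Equiv.optionCongr_apply, Option.map_some, Option.map_none,
    Equiv.coe_mulLeft, mul_one] at h9
  by_contra hne
  have h10 : (some (ev ℓ c.2) : Option G) ≠ some 1 := by
    intro h; exact hne (Option.some_injective _ h)
  rw [Equiv.swap_apply_of_ne_of_ne (by simp) h10] at h9
  exact absurd h9 (by simp)

/-- Change the value of a labelling on a matched pair of ends. -/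
def upd {G : Type} [Group G] (μ : ℕ → ℕ) (ℓ : End → G) (e : End) (g : G) (x : End) : G :=
  if x = e then g else if x = partner μ e then g⁻¹ else ℓ x

theorem compat_upd {G : Type} [Group G] {μ : ℕ → ℕ} {P : End → Prop} {ℓ : End → G} {e : End}
    (hμ : Valid μ P) (he : P e) (hℓ : Compat μ P ℓ) (g : G) : Compat μ P (upd μ ℓ e g) := by
  intro x hx
  unfold upd
  have h1 := partner_partner (hμ e he).1
  have h2 := partner_partner (hμ x hx).1
  by_cases hxe : x = e
  · subst hxe
    rw [if_neg (partner_ne_self μ x), if_pos rfl, if_pos rfl]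
  · by_cases hxp : x = partner μ e
    · subst hxp
      rw [if_pos h1, if_neg hxe, if_pos rfl, inv_inv]
    · rw [if_neg, if_neg, if_neg hxe, if_neg hxp]
      · exact hℓ x hx
      · intro h
        rw [h, h1] at h2
        exact hxe h2.symm
      · intro h
        rw [h] at h2
        exact hxp h2.symm

theorem ev_congr {G : Type} [Group G] {ℓ ℓ' : End → G} {w : List End}
    (h : ∀ x ∈ w, ℓ x = ℓ' x) : ev ℓ w = ev ℓ' w := by
  unfold ev
  rw [List.map_congr_left h]

theorem ev_eq_one {G : Type} [Group G] {ℓ : End → G} {w : List End}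
    (h : ∀ x ∈ w, ℓ x = 1) : ev ℓ w = 1 := by
  induction w with
  | nil => exact ev_nil ℓ
  | cons e w ih =>
    rw [ev_cons, h e (List.mem_cons_self ..), ih fun x hx => h x (List.mem_cons_of_mem _ hx),
      one_mul]

theorem triv_closed {μ : ℕ → ℕ} {P : End → Prop} {w : List End} (hμ : Valid μ P)
    (hd : w.Nodup) (hw : Triv μ P w) {e : End} (he : e ∈ w) (hP : P e) : partner μ e ∈ w := by
  by_contra hne
  obtain ⟨u, v, rfl⟩ := List.append_of_mem he
  have h1 := hw _ _ (compat_upd (G := Multiplicative ℤ) (ℓ := fun _ => 1) hμ hP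
    (fun x _ => by simp) (Multiplicative.ofAdd 1))
  rw [ev_append, ev_cons] at h1
  have hd' := List.nodup_middle.1 hd
  rw [List.nodup_cons, List.mem_append, not_or] at hd'
  rw [List.mem_append, List.mem_cons, not_or, not_or] at hne
  rw [ev_eq_one (w := u), ev_eq_one (w := v)] at h1
  · simp only [upd, if_true, one_mul, mul_one] at h1
    exact absurd h1 (by decide)
  · intro x hx
    unfold upd
    rw [if_neg, if_neg]
    · rintro rfl; exact hne.2.2 hx
    · rintro rfl; exact hd'.1.2 hx
  · intro x hx
    unfold upd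
    rw [if_neg, if_neg]
    · rintro rfl; exact hne.1 hx
    · rintro rfl; exact hd'.1.1 hx

theorem triv_piece {μ : ℕ → ℕ} {P : End → Prop} {u A B : List End} {e : End} (hμ : Valid μ P)
    (hP : P e) (hd : (u ++ e :: (A ++ partner μ e :: B)).Nodup)
    (hw : Triv μ P (u ++ e :: (A ++ partner μ e :: B))) : Triv μ P A := by
  classical
  intro G _ ℓ hℓ
  by_contra hne
  have h3 : Compat μ P (fun x => act (ℓ x)) := by
    intro x hx
    simp only
    rw [hℓ x hx, act_inv]
  have h4 := hw _ _ (compat_upd hμ hP h3 (Equiv.swap none (some 1)))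
  have hd1 := List.nodup_middle.1 hd
  rw [List.nodup_cons] at hd1
  have hd2 : (e :: (u ++ A) ++ partner μ e :: B).Nodup := by
    refine (List.Perm.nodup_iff ?_).1 (List.nodup_middle.1 hd)
    simp
  have hd3 := List.nodup_middle.1 hd2
  rw [List.nodup_cons] at hd3
  have g1 : ∀ x ∈ u ++ A ++ B, x ≠ e ∧ x ≠ partner μ e := by
    intro x hx
    constructor
    · rintro rfl
      apply hd1.1
      simp only [List.mem_append, List.mem_cons] at hx ⊢
      tauto
    · rintro rfl
      apply hd3.1
      simp only [List.mem_append, List.mem_cons] at hx ⊢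
      tauto
  have g2 : ∀ w : List End, (∀ x ∈ w, x ∈ u ++ A ++ B) →
      ev (upd μ (fun x => act (ℓ x)) e (Equiv.swap none (some 1))) w = act (ev ℓ w) := by
    intro w hw
    rw [← ev_act]
    apply ev_congr
    intro x hx
    obtain ⟨g3, g4⟩ := g1 x (hw x hx)
    unfold upd
    rw [if_neg g3, if_neg g4]
  rw [ev_append, ev_cons, ev_append, ev_cons, g2 u (by simp +contextual), g2 A (by simp +contextual),
    g2 B (by simp +contextual)] at h4
  have g5 : upd μ (fun x => act (ℓ x)) e (Equiv.swap none (some 1)) e =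
      Equiv.swap none (some 1) := by simp [upd]
  have g6 : upd μ (fun x => act (ℓ x)) e (Equiv.swap none (some 1)) (partner μ e) =
      Equiv.swap none (some 1) := by
    unfold upd
    rw [if_neg (partner_ne_self μ e), if_pos rfl, Equiv.swap_inv]
  rw [g5, g6] at h4
  have h9 := congrArg (fun p : Equiv.Perm (Option G) => p none) h4
  simp only [Equiv.Perm.mul_apply, Equiv.Perm.one_apply] at h9
  have n1 : ∀ g : G, act g none = none := fun g => by simp [act]
  have n2 : ∀ g h : G, act g (some h) = some (g * h) := fun g h => by simp [act]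
  rw [n1, Equiv.swap_apply_left, n2, mul_one, Equiv.swap_apply_of_ne_of_ne, n2] at h9
  · exact absurd h9 (by simp)
  · simp
  · intro h; exact hne (Option.some_injective _ h)

theorem nonCrossing_of_triv {μ : ℕ → ℕ} {P : End → Prop} {w : List End} (hμ : Valid μ P)
    (hP : ∀ x ∈ w, P x) (hd : w.Nodup) (hw : Triv μ P w) : NonCrossing μ w := by
  refine ⟨fun e he => triv_closed hμ hd hw he (hP e he), ?_⟩
  intro e f hs
  obtain ⟨r1, r2, rfl, he, hs⟩ := List.cons_sublist_iff.1 hs
  obtain ⟨r3, r4, rfl, hf, hs⟩ := List.cons_sublist_iff.1 hs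
  obtain ⟨r5, r6, rfl, hpe, hs⟩ := List.cons_sublist_iff.1 hs
  have hpf : partner μ f ∈ r6 := by simpa using hs
  obtain ⟨u, u', rfl⟩ := List.append_of_mem he
  obtain ⟨v, v', rfl⟩ := List.append_of_mem hpe
  have e1 : u ++ e :: u' ++ (r3 ++ (v ++ partner μ e :: v' ++ r6)) =
      u ++ e :: ((u' ++ r3 ++ v) ++ partner μ e :: (v' ++ r6)) := by simp
  rw [e1] at hd hw hP
  have hA := triv_piece hμ (hP e (by simp)) hd hw
  have hd1 : (u' ++ r3 ++ v).Nodup :=
    ((List.nodup_append.1 (List.nodup_cons.1 (List.nodup_append.1 hd).2.1).2).1)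
  have h1 := triv_closed hμ hd1 hA (e := f) (by simp [hf]) (hP f (by simp [hf]))
  have hd2 := (List.nodup_append.1 (List.nodup_cons.1 (List.nodup_append.1 hd).2.1).2).2.2
  exact hd2 _ h1 _ (by simp [hpf]) rfl

theorem triv_of_nonCrossing {μ : ℕ → ℕ} {P : End → Prop} (hμ : ∀ x, P x → μ (μ x.name) = x.name) :
    ∀ (n : ℕ) (w : List End), w.length ≤ n → (∀ x ∈ w, P x) → w.Nodup → NonCrossing μ w →
      Triv μ P w := by
  intro n
  induction n with
  | zero =>
    intro w hn _ _ _ G _ ℓ _
    have : w = [] := List.length_eq_zero_iff.1 (Nat.le_zero.1 hn)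
    rw [this, ev_nil]
  | succ n ih =>
    intro w hn hP hd hc G _ ℓ hℓ
    rcases w with _ | ⟨e, w⟩
    · exact ev_nil ℓ
    have hpe := hc.1 e (List.mem_cons_self ..)
    rw [List.mem_cons] at hpe
    have hpe := hpe.resolve_left (partner_ne_self μ e)
    obtain ⟨A, B, rfl⟩ := List.append_of_mem hpe
    have hd1 := List.nodup_cons.1 hd
    have hd2 := List.nodup_cons.1 (List.nodup_middle.1 hd1.2)
    simp only [List.mem_append, List.mem_cons, not_or] at hd1 hd2
    have hdA := (List.nodup_append.1 hd2.2).1
    have hdB := (List.nodup_append.1 hd2.2).2.1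
    have hPe := hP e (List.mem_cons_self ..)
    have hPA : ∀ x ∈ A, P x := fun x hx => hP x (by simp [hx])
    have hPB : ∀ x ∈ B, P x := fun x hx => hP x (by simp [hx])
    have hpp : ∀ x, P x → partner μ (partner μ x) = x := fun x hx => partner_partner (hμ x hx)
    have cA : NonCrossing μ A := by
      refine ⟨?_, ?_⟩
      · intro f hf
        have h1 := hc.1 f (by simp [hf])
        simp only [List.mem_cons, List.mem_append] at h1
        rcases h1 with h1 | h1 | h1 | h1
        · exfalso
          have : f = partner μ e := by rw [← h1, hpp f (hPA f hf)]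
          rw [this] at hf
          exact hd2.1.1 hf
        · exact h1
        · exfalso
          have : f = e := by rw [← hpp f (hPA f hf), h1, hpp e hPe]
          rw [this] at hf
          exact hd1.1.1 hf
        · exfalso
          apply hc.2 e f
          refine List.Sublist.cons_cons e ?_
          have : [f, partner μ e, partner μ f] = [f] ++ (partner μ e :: [partner μ f]) := rfl
          rw [this]
          exact List.Sublist.append (List.singleton_sublist.2 hf)
            (List.Sublist.cons_cons _ (List.singleton_sublist.2 h1))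
      · intro x y h
        apply hc.2 x y
        refine h.trans ?_
        exact ((List.sublist_append_left A _).trans (List.sublist_cons_self _ _))
    have cB : NonCrossing μ B := by
      refine ⟨?_, ?_⟩
      · intro f hf
        have h1 := hc.1 f (by simp [hf])
        simp only [List.mem_cons, List.mem_append] at h1
        rcases h1 with h1 | h1 | h1 | h1
        · exfalso
          have : f = partner μ e := by rw [← h1, hpp f (hPB f hf)]
          rw [this] at hf
          exact hd2.1.2 hf
        · exfalso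
          apply hc.2 e (partner μ f)
          refine List.Sublist.cons_cons e ?_
          rw [hpp f (hPB f hf)]
          have : [partner μ f, partner μ e, f] = [partner μ f] ++ (partner μ e :: [f]) := rfl
          rw [this]
          exact List.Sublist.append (List.singleton_sublist.2 h1)
            (List.Sublist.cons_cons _ (List.singleton_sublist.2 hf))
        · exfalso
          have : f = e := by rw [← hpp f (hPB f hf), h1, hpp e hPe]
          rw [this] at hf
          exact hd1.1.2.2 hf
        · exact h1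
      · intro x y h
        apply hc.2 x y
        refine h.trans ?_
        exact ((List.sublist_cons_self _ _).trans
          ((List.sublist_append_right A _).trans (List.sublist_cons_self _ _)))
    have lA : A.length ≤ n := by
      simp only [List.length_cons, List.length_append] at hn
      omega
    have lB : B.length ≤ n := by
      simp only [List.length_cons, List.length_append] at hn
      omega
    rw [ev_cons, ev_append, ev_cons, ih A lA hPA hdA cA G ℓ hℓ, ih B lB hPB hdB cB G ℓ hℓ,
      hℓ e hPe]
    simp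

/-! ### A trivial word has adjacent matched ends -/

/-- One end out of each matched pair is distinguished. -/
def rep (μ : ℕ → ℕ) (f : End) : Bool :=
  if μ f.name = f.name then f.top else decide (f.name < μ f.name)

theorem rep_partner {μ : ℕ → ℕ} {f : End} (h : μ (μ f.name) = f.name) :
    rep μ (partner μ f) = !rep μ f := by
  unfold rep
  rw [partner_name, h]
  by_cases h1 : μ f.name = f.name
  · rw [if_pos h1.symm, if_pos h1, partner_self h1]
    rfl
  · rw [if_neg (Ne.symm h1), if_neg h1]
    rcases lt_or_gt_of_ne h1 with h2 | h2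
    · simp [h2, not_lt.2 h2.le]
    · simp [h2, not_lt.2 h2.le]

/-- The letter of the free group attached to an end. -/
def code (μ : ℕ → ℕ) (f : End) : End × Bool :=
  if rep μ f then (f, true) else (partner μ f, false)

theorem adjacent {μ : ℕ → ℕ} {P : End → Prop} {w : List End} (hμ : Valid μ P)
    (hP : ∀ x ∈ w, P x) (hw : Triv μ P w) (hne : w ≠ []) :
    ∃ u e v, w = u ++ e :: partner μ e :: v := by
  have hc : Compat μ P (fun f => FreeGroup.mk [code μ f]) := by
    intro f hf
    have h1 := rep_partner (hμ f hf).1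
    have h2 := partner_partner (hμ f hf).1
    simp only [code]
    cases h3 : rep μ f
    · rw [h3] at h1
      simp [h1, FreeGroup.inv_mk, FreeGroup.invRev]
    · rw [h3] at h1
      simp [h1, h2, FreeGroup.inv_mk, FreeGroup.invRev]
  have h1 := hw _ _ hc
  have h2 : ∀ v : List End,
      ev (fun f => FreeGroup.mk [code μ f]) v = FreeGroup.mk (v.map (code μ)) := by
    intro v
    induction v with
    | nil => rw [ev_nil]; rfl
    | cons e v ih => rw [ev_cons, ih, FreeGroup.mul_mk]; rfl
  rw [h2] at h1
  have h3 := congrArg FreeGroup.toWord h1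
  rw [FreeGroup.toWord_mk, FreeGroup.toWord_one] at h3
  have h4 : FreeGroup.Red (w.map (code μ)) (FreeGroup.reduce (w.map (code μ))) :=
    FreeGroup.reduce.red
  rw [h3] at h4
  rcases Relation.ReflTransGen.cases_head h4 with h5 | ⟨L', h5, -⟩
  · exact absurd (List.map_eq_nil_iff.1 h5) hne
  generalize hv : w.map (code μ) = V at h5
  cases h5 with
  | @not L₁ L₂ x b =>
    obtain ⟨u, w', rfl, -, h6⟩ := List.map_eq_append_iff.1 hv
    obtain ⟨e, w'', rfl, h7, h8⟩ := List.map_eq_cons_iff.1 h6
    obtain ⟨f, v, rfl, h9, -⟩ := List.map_eq_cons_iff.1 h8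
    refine ⟨u, e, v, ?_⟩
    have he := hP e (by simp)
    have hf := hP f (by simp)
    have : f = partner μ e := by
      unfold code at h7 h9
      cases hre : rep μ e <;> cases hrf : rep μ f
      · simp only [hre, hrf, Bool.false_eq_true, if_false, Prod.mk.injEq] at h7 h9
        rw [← h7.2] at h9
        simp at h9
      · simp only [hre, hrf, Bool.false_eq_true, if_false, if_true, Prod.mk.injEq] at h7 h9
        rw [h9.1, h7.1]
      · simp only [hre, hrf, Bool.false_eq_true, if_false, if_true, Prod.mk.injEq] at h7 h9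
        rw [h7.1, ← h9.1, partner_partner (hμ f hf).1]
      · simp only [hre, hrf, if_true, Prod.mk.injEq] at h7 h9
        rw [← h7.2] at h9
        simp at h9
    rw [this]

/-! ### The descending movie -/

/-- A connected diagram with a matching for which all circles are trivial. -/
structure Inv (μ : ℕ → ℕ) (L : Link) : Prop where
  diag : IsDiagram L
  zero : ∀ c ∈ L, c.1 = 0
  valid : Valid μ (fun x => x ∈ ends L)
  triv : ∀ c ∈ L, Triv μ (fun x => x ∈ ends L) c.2

theorem Inv.of_ends {μ : ℕ → ℕ} {L L' : Link} (h : Inv μ L) (he : ends L' = ends L)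
    (h0 : ∀ c ∈ L', c.1 = 0) (ht : ∀ c ∈ L', Triv μ (fun x => x ∈ ends L) c.2) : Inv μ L' := by
  refine ⟨?_, h0, ?_, ?_⟩
  · have := h.diag
    unfold IsDiagram at this ⊢
    rwa [he]
  · rw [he]; exact h.valid
  · rw [he]; exact ht

theorem Inv.rotate {μ : ℕ → ℕ} {u v : List End} {R : Link} (h : Inv μ ((0, u ++ v) ::ₘ R)) :
    Inv μ ((0, v ++ u) ::ₘ R) := by
  refine h.of_ends ?_ ?_ ?_
  · rw [ends_cons, ends_cons]
    congr 1
    exact Multiset.coe_eq_coe.2 List.perm_append_comm
  · intro c hc
    rw [Multiset.mem_cons] at hc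
    rcases hc with rfl | hc
    · rfl
    · exact h.zero c (Multiset.mem_cons_of_mem hc)
  · intro c hc
    rw [Multiset.mem_cons] at hc
    rcases hc with rfl | hc
    · intro G _ ℓ hℓ
      have h1 := h.triv _ (Multiset.mem_cons_self ..) G ℓ hℓ
      simp only [ev_append] at h1 ⊢
      exact mul_eq_one_comm.1 h1
    · exact h.triv c (Multiset.mem_cons_of_mem hc)

theorem Inv.split {μ : ℕ → ℕ} {u v : List End} {R : Link} (h : Inv μ ((0, u ++ v) ::ₘ R))
    (hu : Triv μ (fun x => x ∈ ends ((0, u ++ v) ::ₘ R)) u) :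
    Inv μ ((0, u) ::ₘ (0, v) ::ₘ R) := by
  refine h.of_ends ?_ ?_ ?_
  · rw [ends_cons, ends_cons, ends_cons, ← add_assoc]
    rfl
  · intro c hc
    rw [Multiset.mem_cons, Multiset.mem_cons] at hc
    rcases hc with rfl | rfl | hc
    · rfl
    · rfl
    · exact h.zero c (Multiset.mem_cons_of_mem hc)
  · intro c hc
    rw [Multiset.mem_cons, Multiset.mem_cons] at hc
    rcases hc with rfl | rfl | hc
    · exact hu
    · intro G _ ℓ hℓ
      have h1 := h.triv _ (Multiset.mem_cons_self ..) G ℓ hℓ
      simp only [ev_append] at h1 ⊢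
      rw [hu G ℓ hℓ, one_mul] at h1
      exact h1
    · exact h.triv c (Multiset.mem_cons_of_mem hc)

/-- Remove all crossings whose names have the property `D`. -/
def erase (D : ℕ → Prop) [DecidablePred D] (L : Link) : Link :=
  L.map fun c => (c.1, c.2.filter fun x => ¬ D x.name)

theorem ends_erase (D : ℕ → Prop) [DecidablePred D] (L : Link) :
    ends (erase D L) = (ends L).filter fun x => ¬ D x.name := by
  induction L using Multiset.induction_on with
  | empty => rfl
  | cons c L ih =>
    have h1 : erase D (c ::ₘ L) = (c.1, c.2.filter fun x => ¬ D x.name) ::ₘ erase D L := by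
      simp only [erase, Multiset.map_cons]
    rw [h1, ends_cons, ends_cons, Multiset.filter_add, ih, Multiset.filter_coe]

theorem Inv.erase {μ : ℕ → ℕ} {L : Link} (h : Inv μ L) (D : ℕ → Prop) [DecidablePred D]
    (hD : ∀ x ∈ ends L, D (μ x.name) ↔ D x.name) : Inv μ (erase D L) := by
  have hm : ∀ x, x ∈ ends (NoR3AfterBirth.erase D L) ↔ x ∈ ends L ∧ ¬ D x.name := by
    intro x
    rw [ends_erase, Multiset.mem_filter]
  refine ⟨⟨?_, ?_, ?_⟩, ?_, ?_, ?_⟩
  · rw [ends_erase]
    exact h.diag.1.filter _
  · intro e he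
    rw [hm] at he ⊢
    exact ⟨h.diag.2.1 e he.1, he.2⟩
  · intro e he f hf
    rw [hm] at he hf
    exact h.diag.2.2 e he.1 f hf.1
  · intro c hc
    obtain ⟨d, hd, rfl⟩ := Multiset.mem_map.1 hc
    exact h.zero d hd
  · intro x hx
    rw [hm] at hx
    obtain ⟨h1, h2⟩ := h.valid x hx.1
    refine ⟨h1, (hm _).2 ?_⟩
    rw [partner_name, hD x hx.1]
    exact ⟨h2, hx.2⟩
  · intro c hc G _ ℓ hℓ
    obtain ⟨d, hd, rfl⟩ := Multiset.mem_map.1 hc
    have h1 : Compat μ (fun x => x ∈ ends L) (fun x => if D x.name then 1 else ℓ x) := by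
      intro x hx
      simp only [partner_name, hD x hx]
      split_ifs with h2
      · simp
      · exact hℓ x ((hm x).2 ⟨hx, h2⟩)
    have h2 := h.triv d hd G _ h1
    rw [← h2]
    clear h2 hd hc
    generalize d.2 = w
    induction w with
    | nil => rfl
    | cons e w ih =>
      by_cases h3 : D e.name
      · rw [List.filter_cons_of_neg (by simpa using h3), ev_cons, if_pos h3, one_mul]
        exact ih
      · rw [List.filter_cons_of_pos (by simpa using h3), ev_cons, ev_cons, if_neg h3]
        rw [ih]

theorem fill_erase {k : ℕ} {f : Fin k → List End} {C : Pattern k} (D : ℕ → Prop)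
    [DecidablePred D] (h1 : ∀ e, Sum.inl e ∈ letters C → ¬ D e.name)
    (h2 : ∀ i, ∀ x ∈ f i, D x.name) : erase D (fill f C) = fill (fun _ => []) C := by
  have key : ∀ w : List (End ⊕ Fin k), (∀ x ∈ w, x ∈ letters C) →
      (w.flatMap (Sum.elim (fun e => [e]) f)).filter (fun x => ¬ D x.name) =
        w.flatMap (Sum.elim (fun e => [e]) fun _ => []) := by
    intro w
    induction w with
    | nil => intro _; rfl
    | cons x w ih =>
      intro hw
      rw [List.flatMap_cons, List.flatMap_cons, List.filter_append,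
        ih fun y hy => hw y (List.mem_cons_of_mem _ hy)]
      congr 1
      rcases x with x | i
      · have := h1 x (hw _ (List.mem_cons_self ..))
        simp [this]
      · simp only [Sum.elim_inr]
        rw [List.filter_eq_nil_iff]
        intro y hy
        have := h2 i y hy
        simp [this]
  unfold erase fill
  rw [Multiset.map_map]
  refine Multiset.map_congr rfl fun c hc => ?_
  simp only [Function.comp]
  refine Prod.ext rfl (key _ fun x hx => ?_)
  unfold letters
  rw [Multiset.mem_bind]
  exact ⟨c, hc, hx⟩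

/-- A diagram as a pattern without gaps. -/
def lift (k : ℕ) (R : Link) : Pattern k := R.map fun c => (c.1, c.2.map Sum.inl)

theorem flatMap_lift {k : ℕ} (f : Fin k → List End) (w : List End) :
    (w.map Sum.inl : List (End ⊕ Fin k)).flatMap (Sum.elim (fun e => [e]) f) = w := by
  induction w with
  | nil => rfl
  | cons e w ih => rw [List.map_cons, List.flatMap_cons, ih]; rfl

theorem fill_lift {k : ℕ} (f : Fin k → List End) (R : Link) : fill f (lift k R) = R := by
  unfold fill lift
  rw [Multiset.map_map]
  conv_rhs => rw [← Multiset.map_id R]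
  refine Multiset.map_congr rfl fun c _ => ?_
  simp only [Function.comp, flatMap_lift]
  rfl

theorem fill_cons {k : ℕ} (f : Fin k → List End) (c : ℕ × List (End ⊕ Fin k)) (C : Pattern k) :
    fill f (c ::ₘ C) = (c.1, c.2.flatMap (Sum.elim (fun e => [e]) f)) ::ₘ fill f C := by
  simp only [fill, Multiset.map_cons]

theorem count_lift {k : ℕ} (w : List End) (i : Fin k) :
    ((w.map Sum.inl : List (End ⊕ Fin k)) : Multiset (End ⊕ Fin k)).count (Sum.inr i) = 0 := by
  rw [Multiset.count_eq_zero]
  simp

theorem count_lift' {k : ℕ} (R : Link) (i : Fin k) :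
    ((lift k R).bind fun c => (c.2 : Multiset (End ⊕ Fin k))).count (Sum.inr i) = 0 := by
  rw [Multiset.count_eq_zero]
  intro h
  rw [Multiset.mem_bind] at h
  obtain ⟨c, hc, h⟩ := h
  obtain ⟨d, -, rfl⟩ := Multiset.mem_map.1 hc
  simp at h

/-- The kinds of moves which never make a diagram more complicated. -/
def Down : Set Kind := {m | m = .rotate ∨ m = .r1del ∨ m = .r2del ∨ m = .split ∨ m = .death}

theorem movie_step {A : Set Kind} {m : Kind} {S T L : Link} (hm : m ∈ A) (h : Step m S T)
    (hS : IsDiagram S) (hT : IsDiagram T) (hL : Movie A T L) : Movie A S L :=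
  Relation.ReflTransGen.head ⟨hS, hT, m, hm, h⟩ hL

theorem movie_empty : ∀ L : Link, (∀ c ∈ L, c = (0, [])) → Movie Down L 0 := by
  intro L
  induction L using Multiset.induction_on with
  | empty => intro _; exact Relation.ReflTransGen.refl
  | cons c L ih =>
    intro h
    have hd : ∀ M : Link, (∀ c ∈ M, c = (0, [])) → IsDiagram M := by
      intro M hM
      have : ends M = 0 := by
        rw [Multiset.eq_zero_iff_forall_notMem]
        intro x hx
        obtain ⟨c, hc, hx⟩ := mem_ends.1 hx
        rw [hM c hc] at hx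
        simp at hx
      unfold IsDiagram
      rw [this]
      simp
    have hc := h c (Multiset.mem_cons_self ..)
    have hL : ∀ c ∈ L, c = (0, []) := fun d hd => h d (Multiset.mem_cons_of_mem hd)
    refine movie_step (m := .death) (by simp [Down]) ?_ (hd _ h) (hd _ hL) (ih hL)
    rw [hc]
    exact Step.death 0 L

/-- One deletion of a crossing. -/
theorem down_r1 {μ : ℕ → ℕ} {e : End} {l : List End} {R : Link}
    (h : Inv μ ((0, e :: e.flip :: l) ::ₘ R)) (hf : μ e.name = e.name) :
    ∃ L', Step .r1del ((0, e :: e.flip :: l) ::ₘ R) L' ∧ Inv μ L' ∧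
      (ends L').card < (ends ((0, e :: e.flip :: l) ::ₘ R)).card := by
  let C : Pattern 1 := (0, Sum.inr 0 :: l.map Sum.inl) ::ₘ lift 1 R
  have hC : C.Once := by
    intro i
    fin_cases i
    simp only [C, Multiset.cons_bind, Multiset.count_add, count_lift', ← Multiset.cons_coe,
      Fin.zero_eta, Multiset.count_cons_self, count_lift]
  have h1 : fill ![[e, e.flip]] C = (0, e :: e.flip :: l) ::ₘ R := by
    simp only [C, fill_cons, fill_lift, List.flatMap_cons, flatMap_lift]
    rfl
  have h2 : (![[]] : Fin 1 → List End) = fun _ => [] := by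
    funext i; fin_cases i; rfl
  have hd := h.diag
  rw [← h1] at hd
  obtain ⟨hn, hE⟩ := r1_ends hC hd
  have h3 : erase (fun n => n = e.name) (fill ![[e, e.flip]] C) = fill (fun _ => []) C := by
    refine fill_erase _ ?_ ?_
    · intro x hx
      apply hn x
      rw [mem_ends_fill hC]
      exact Or.inl hx
    · intro i
      fin_cases i
      intro x hx
      have : x = e ∨ x = e.flip := by simpa using hx
      rcases this with rfl | rfl <;> rfl
  have h4 : Inv μ (erase (fun n => n = e.name) ((0, e :: e.flip :: l) ::ₘ R)) := by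
    refine h.erase _ ?_
    intro x hx
    have h5 := (h.valid x hx).1
    constructor
    · intro h6
      rw [h6, hf] at h5
      exact h5.symm
    · intro h6
      rw [h6, hf]
  refine ⟨_, ?_, h4, ?_⟩
  · have := Step.r1del e C hC
    rw [h2, ← h3, h1] at this
    exact this
  · rw [ends_erase]
    have : e ∈ ends ((0, e :: e.flip :: l) ::ₘ R) := by
      rw [mem_ends_cons]; simp
    refine lt_of_le_of_ne (Multiset.card_le_card (Multiset.filter_le _ _)) ?_
    intro h5
    have h6 := Multiset.eq_of_le_of_card_le (Multiset.filter_le _ _) h5.ge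
    rw [Multiset.filter_eq_self] at h6
    exact h6 e this rfl

/-- One deletion of two crossings, seen on a pattern. -/
theorem down_r2 {μ : ℕ → ℕ} {a b : End} {t : Bool} {C : Pattern 2} (hC : C.Once)
    (hk : a.top = b.top) (hs : a.pos = !b.pos)
    (h : Inv μ (fill ![[a, b], order t a.flip b.flip] C)) (hf : μ a.name = b.name) :
    ∃ L', Step .r2del (fill ![[a, b], order t a.flip b.flip] C) L' ∧ Inv μ L' ∧
      (ends L').card < (ends (fill ![[a, b], order t a.flip b.flip] C)).card := by
  have h2 : (![[], []] : Fin 2 → List End) = fun _ => [] := by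
    funext i; fin_cases i <;> rfl
  have hd := h.diag
  obtain ⟨hab, hn, hE⟩ := r2_ends hk hs hC hd
  have ha : a ∈ ends (fill ![[a, b], order t a.flip b.flip] C) :=
    (hE a).2 (Or.inr (Or.inl ⟨rfl, rfl⟩))
  have h3 : erase (fun n => n = a.name ∨ n = b.name) (fill ![[a, b], order t a.flip b.flip] C) =
      fill (fun _ => []) C := by
    refine fill_erase _ ?_ ?_
    · intro x hx h
      have := hn x (by rw [mem_ends_fill hC]; exact Or.inl hx)
      rcases h with h | h
      · exact this.1 h
      · exact this.2 h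
    · intro i
      fin_cases i
      · intro x hx
        have : x = a ∨ x = b := by simpa using hx
        rcases this with rfl | rfl <;> simp
      · intro x hx
        have : x = a.flip ∨ x = b.flip := by
          simpa [mem_order] using hx
        rcases this with rfl | rfl <;> simp [End.flip]
  have hba : μ b.name = a.name := by
    have := (h.valid a ha).1
    rwa [hf] at this
  have h4 : Inv μ (erase (fun n => n = a.name ∨ n = b.name)
      (fill ![[a, b], order t a.flip b.flip] C)) := by
    refine h.erase _ ?_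
    intro x hx
    have h5 := (h.valid x hx).1
    constructor
    · rintro (h6 | h6)
      · rw [h6, hf] at h5
        exact Or.inr h5.symm
      · rw [h6, hba] at h5
        exact Or.inl h5.symm
    · rintro (h6 | h6)
      · rw [h6, hf]; exact Or.inr rfl
      · rw [h6, hba]; exact Or.inl rfl
  refine ⟨_, ?_, h4, ?_⟩
  · have := Step.r2del a b t hk hs C hC
    rw [h2, ← h3] at this
    exact this
  · rw [ends_erase]
    refine lt_of_le_of_ne (Multiset.card_le_card (Multiset.filter_le _ _)) ?_
    intro h5
    have h6 := Multiset.eq_of_le_of_card_le (Multiset.filter_le _ _) h5.ge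
    rw [Multiset.filter_eq_self] at h6
    exact h6 a ha (Or.inl rfl)

theorem two_mem {x y : End} {w : List End} (hx : x ∈ w) (hy : y ∈ w) (hne : x ≠ y) :
    ∃ t u v z f g, order t x y = [f, g] ∧ w = u ++ f :: (v ++ g :: z) := by
  obtain ⟨u, z, rfl⟩ := List.append_of_mem hx
  rw [List.mem_append, List.mem_cons] at hy
  rcases hy with hy | hy | hy
  · obtain ⟨u', v, rfl⟩ := List.append_of_mem hy
    exact ⟨false, u', v, z, y, x, rfl, by simp⟩
  · exact absurd hy.symm hne
  · obtain ⟨v, z', rfl⟩ := List.append_of_mem hy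
    exact ⟨true, u, v, z', x, y, rfl, by simp⟩

theorem nodup_circle {L : Link} (h : IsDiagram L) {c : ℕ × List End} (hc : c ∈ L) :
    c.2.Nodup := by
  obtain ⟨M, rfl⟩ := Multiset.exists_cons_of_mem hc
  have := h.1
  rw [ends_cons] at this
  exact Multiset.coe_nodup.1 (Multiset.nodup_add.1 this).1

/-- Split off the piece between two matched ends. -/
theorem cut_piece {μ : ℕ → ℕ} {u v z : List End} {f g : End} {R : Link}
    (h : Inv μ ((0, u ++ f :: (v ++ g :: z)) ::ₘ R)) (hg : g = partner μ f) :
    Inv μ ((0, u ++ f :: g :: z) ::ₘ (0, v) ::ₘ R) ∧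
    (ends ((0, u ++ f :: g :: z) ::ₘ (0, v) ::ₘ R)).card =
      (ends ((0, u ++ f :: (v ++ g :: z)) ::ₘ R)).card ∧
    ∀ L, Movie Down ((0, u ++ f :: g :: z) ::ₘ (0, v) ::ₘ R) L →
      Movie Down ((0, u ++ f :: (v ++ g :: z)) ::ₘ R) L := by
  have e1 : u ++ f :: (v ++ g :: z) = (u ++ [f]) ++ (v ++ g :: z) := by simp
  have e2 : u ++ f :: g :: z = (u ++ [f]) ++ (g :: z) := by simp
  have hd := nodup_circle h.diag (Multiset.mem_cons_self ..)
  have hf : f ∈ ends ((0, u ++ f :: (v ++ g :: z)) ::ₘ R) := by
    rw [mem_ends_cons]; simp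
  have hv : Triv μ (fun x => x ∈ ends ((0, u ++ f :: (v ++ g :: z)) ::ₘ R)) v := by
    have := h.triv _ (Multiset.mem_cons_self ..)
    simp only [hg] at this hd h hf ⊢
    exact triv_piece h.valid hf hd this
  have h1 : Inv μ ((0, (u ++ [f]) ++ (v ++ g :: z)) ::ₘ R) := by rw [← e1]; exact h
  have h2 := h1.rotate
  have h3 : Inv μ ((0, v ++ ((g :: z) ++ (u ++ [f]))) ::ₘ R) := by
    rw [← List.append_assoc]; exact h2
  have hends : (fun x => x ∈ ends ((0, v ++ ((g :: z) ++ (u ++ [f]))) ::ₘ R)) =
      fun x => x ∈ ends ((0, u ++ f :: (v ++ g :: z)) ::ₘ R) := by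
    funext x
    simp only [mem_ends_cons, List.mem_append, List.mem_cons, eq_iff_iff]
    tauto
  have h4 := h3.split (by rw [hends]; exact hv)
  have h5 : Inv μ ((0, (g :: z) ++ (u ++ [f])) ::ₘ (0, v) ::ₘ R) := by
    rw [Multiset.cons_swap]; exact h4
  have h6 := h5.rotate
  rw [← e2] at h6
  refine ⟨h6, ?_, ?_⟩
  · simp only [ends_cons, Multiset.card_add, Multiset.coe_card, List.length_append,
      List.length_cons]
    ring
  · intro L hL
    have s1 := Step.rotate 0 (u ++ [f]) (v ++ g :: z) R
    have s2 := Step.split 0 v ((g :: z) ++ (u ++ [f])) R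
    have s3 := Step.rotate 0 (g :: z) (u ++ [f]) ((0, v) ::ₘ R)
    rw [← e1, List.append_assoc] at s1
    rw [Multiset.cons_swap] at s2
    rw [← e2] at s3
    exact movie_step (by simp [Down]) s1 h.diag h3.diag
      (movie_step (by simp [Down]) s2 h3.diag h5.diag
        (movie_step (by simp [Down]) s3 h5.diag h6.diag hL))

theorem order_partner {μ : ℕ → ℕ} {e f g : End} {t : Bool} (he : μ (μ e.name) = e.name)
    (h : order t e.flip (partner μ e).flip = [f, g]) : g = partner μ f := by
  unfold order at h
  cases t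
  · simp only [Bool.false_eq_true, if_false, List.cons.injEq, and_true] at h
    rw [← h.1, ← h.2, flip_partner, partner_partner he]
  · simp only [if_true, List.cons.injEq, and_true] at h
    rw [← h.1, ← h.2, flip_partner]

theorem down_movie {μ : ℕ → ℕ} : ∀ (n : ℕ) (L : Link), (ends L).card = n → Inv μ L →
    Movie Down L 0 := by
  intro n
  induction n using Nat.strong_induction_on with
  | _ n ih =>
  intro L hn hI
  by_cases hall : ∀ c ∈ L, c.2 = []
  · exact movie_empty L fun c hc => Prod.ext (hI.zero c hc) (hall c hc)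
  push Not at hall
  obtain ⟨⟨i, w⟩, hc, hne⟩ := hall
  have hi : i = 0 := hI.zero _ hc
  subst hi
  obtain ⟨R, rfl⟩ := Multiset.exists_cons_of_mem hc
  have hP : ∀ x ∈ w, x ∈ ends ((0, w) ::ₘ R) := by
    intro x hx; rw [mem_ends_cons]; exact Or.inl hx
  obtain ⟨u, e, v, rfl⟩ := adjacent hI.valid hP (hI.triv _ (Multiset.mem_cons_self ..)) hne
  have hI1 := hI.rotate
  have hcard : (ends ((0, (e :: partner μ e :: v) ++ u) ::ₘ R)).card = n := by
    rw [← hn]
    simp only [ends_cons, Multiset.card_add, Multiset.coe_card, List.length_append,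
      List.length_cons]
    ring
  refine movie_step (by simp [Down]) (Step.rotate 0 u (e :: partner μ e :: v) R) hI.diag
    hI1.diag ?_
  have e0 : (e :: partner μ e :: v) ++ u = e :: partner μ e :: (v ++ u) := by simp
  rw [e0] at hI1 hcard ⊢
  generalize v ++ u = l at hI1 hcard ⊢
  clear hI hP hc hn hne e0
  have heE : e ∈ ends ((0, e :: partner μ e :: l) ::ₘ R) := by
    rw [mem_ends_cons]; simp
  have hval := hI1.valid e heE
  by_cases hμe : μ e.name = e.name
  · rw [partner_self hμe] at hI1 hcard ⊢
    obtain ⟨L', h1, h2, h3⟩ := down_r1 hI1 hμe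
    refine movie_step (by simp [Down]) h1 hI1.diag h2.diag ?_
    exact ih _ (by rw [← hcard]; exact h3) L' rfl h2
  · have hp := partner_ne hμe
    have hk : e.top = (partner μ e).top := by rw [hp]
    have hs : e.pos = !(partner μ e).pos := by rw [hp]; simp
    have hname : μ e.name = (partner μ e).name := (partner_name μ e).symm
    -- the final step, on a pattern
    have fin : ∀ (t : Bool) (C : Pattern 2), C.Once → ∀ M : Link,
        fill ![[e, partner μ e], order t e.flip (partner μ e).flip] C = M → Inv μ M →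
        (ends M).card = n → Movie Down M 0 := by
      rintro t C hC M rfl hM hMn
      obtain ⟨L', h1, h2, h3⟩ := down_r2 hC hk hs hM hname
      refine movie_step (by simp [Down]) h1 hM.diag h2.diag ?_
      exact ih _ (by rw [← hMn]; exact h3) L' rfl h2
    have hfl := hI1.diag.2.1 e heE
    have hflp : partner μ e.flip = (partner μ e).flip := flip_partner μ e
    have hne1 : e.flip ≠ (partner μ e).flip := by
      rw [← hflp]; exact (partner_ne_self μ e.flip).symm
    rw [mem_ends_cons] at hfl
    by_cases hcase : e.flip ∈ (e :: partner μ e :: l)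
    · -- both pairs of ends are on one circle
      have hcl := triv_closed hI1.valid (nodup_circle hI1.diag (Multiset.mem_cons_self ..))
        (hI1.triv _ (Multiset.mem_cons_self ..)) hcase (by rw [mem_ends_cons]; exact Or.inl hcase)
      rw [hflp] at hcl
      have q1 : e.flip ∈ l := by
        rw [List.mem_cons, List.mem_cons] at hcase
        rcases hcase with h | h | h
        · have := congrArg End.top h
          simp [End.flip] at this
        · have := congrArg End.top h
          rw [← hk] at this
          simp [End.flip] at this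
        · exact h
      have q2 : (partner μ e).flip ∈ l := by
        simp only [List.mem_cons] at hcl
        rcases hcl with h | h | h
        · have := congrArg End.top h
          rw [hk] at this
          simp [End.flip] at this
        · have := congrArg End.top h
          simp [End.flip] at this
        · exact h
      obtain ⟨t, u', v', z', f, g, ho, rfl⟩ := two_mem q1 q2 hne1
      have hg := order_partner hval.1 ho
      have e1 : (e :: partner μ e :: (u' ++ f :: (v' ++ g :: z'))) =
          (e :: partner μ e :: u') ++ f :: (v' ++ g :: z') := by simp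
      rw [e1] at hI1 hcard ⊢
      obtain ⟨j1, j2, j3⟩ := cut_piece hI1 hg
      apply j3
      rw [hcard] at j2
      refine fin t ((0, Sum.inr 0 :: (u'.map Sum.inl ++ Sum.inr 1 :: z'.map Sum.inl)) ::ₘ
        lift 2 ((0, v') ::ₘ R)) ?_ _ ?_ j1 j2
      · intro i
        rw [Multiset.cons_bind, Multiset.count_add, count_lift', ← Multiset.cons_coe,
          ← Multiset.coe_add, ← Multiset.cons_coe]
        fin_cases i
        · simp only [Fin.zero_eta, Multiset.count_cons_self, Multiset.count_add, count_lift]
          rw [Multiset.count_cons_of_ne (by simp), count_lift]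
        · simp only [Fin.mk_one]
          rw [Multiset.count_cons_of_ne (by simp), Multiset.count_add, count_lift,
            Multiset.count_cons_self, count_lift]
      · rw [fill_cons, fill_lift]
        simp only [List.flatMap_cons, List.flatMap_append, flatMap_lift, Sum.elim_inr,
          Matrix.cons_val_zero, Matrix.cons_val_one, ho]
        simp
    · -- the two pairs of ends are on different circles
      have hfl := hfl.resolve_left hcase
      obtain ⟨d, hd, hfd⟩ := mem_ends.1 hfl
      have hd0 : d ∈ (0, e :: partner μ e :: l) ::ₘ R := Multiset.mem_cons_of_mem hd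
      have hdz := hI1.zero d hd0
      rcases d with ⟨j, w⟩
      simp only at hdz hfd
      subst hdz
      have q2 := triv_closed hI1.valid (nodup_circle hI1.diag hd0) (hI1.triv _ hd0) hfd
        (by rw [mem_ends_cons]; exact Or.inr hfl)
      rw [hflp] at q2
      obtain ⟨R', rfl⟩ := Multiset.exists_cons_of_mem hd
      obtain ⟨t, u', v', z', f, g, ho, rfl⟩ := two_mem hfd q2 hne1
      have hg := order_partner hval.1 ho
      rw [Multiset.cons_swap] at hI1 hcard ⊢
      obtain ⟨j1, j2, j3⟩ := cut_piece hI1 hg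
      apply j3
      rw [hcard] at j2
      refine fin t ((0, (u'.map Sum.inl ++ Sum.inr 1 :: z'.map Sum.inl)) ::ₘ
        (0, Sum.inr 0 :: l.map Sum.inl) ::ₘ lift 2 ((0, v') ::ₘ R')) ?_ _ ?_ j1 j2
      · intro i
        rw [Multiset.cons_bind, Multiset.cons_bind, Multiset.count_add, Multiset.count_add,
          count_lift', ← Multiset.coe_add, ← Multiset.cons_coe, ← Multiset.cons_coe,
          Multiset.count_add, count_lift]
        fin_cases i
        · simp only [Fin.zero_eta, Multiset.count_cons_self, count_lift]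
          rw [Multiset.count_cons_of_ne (by simp), count_lift]
        · simp only [Fin.mk_one, Multiset.count_cons_self, count_lift]
          rw [Multiset.count_cons_of_ne (by simp), count_lift]
      · rw [fill_cons, fill_cons, fill_lift, Multiset.cons_swap (0, v')]
        simp only [List.flatMap_cons, List.flatMap_append, flatMap_lift, Sum.elim_inr,
          Matrix.cons_val_zero, Matrix.cons_val_one, ho]
        simp

theorem Movie.mono {A B : Set Kind} (hAB : A ⊆ B) {L L' : Link} (h : Movie A L L') :
    Movie B L L' := by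
  unfold Movie at *
  induction h with
  | refl => exact Relation.ReflTransGen.refl
  | tail _ h' ih =>
    obtain ⟨h1, h2, m, hm, h3⟩ := h'
    exact ih.tail ⟨h1, h2, m, hAB hm, h3⟩

theorem fill_zero {k : ℕ} {f g : Fin k → List End} {C : Pattern k}
    (h : ∀ c ∈ fill f C, c.1 = 0) : ∀ c ∈ fill g C, c.1 = 0 := by
  intro c hc
  obtain ⟨d, hd, rfl⟩ := Multiset.mem_map.1 hc
  exact h (d.1, d.2.flatMap (Sum.elim (fun e => [e]) f)) (Multiset.mem_map.2 ⟨d, hd, rfl⟩)

theorem step_zero {m : Kind} {S T : Link} (h : Step m S T) (hm : m ≠ Kind.birth)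
    (hS : ∀ c ∈ S, c.1 = 0) : ∀ c ∈ T, c.1 = 0 := by
  induction h with
  | rotate i u v R =>
    simp only [Multiset.mem_cons, forall_eq_or_imp] at hS ⊢
    exact hS
  | r1del e C hC => exact fill_zero hS
  | r1add e C hC => exact fill_zero hS
  | r2del a b t hk hs C hC => exact fill_zero hS
  | r2add a b t hk hs C hC => exact fill_zero hS
  | r3 a b c sa sb sc k C hC => exact fill_zero hS
  | birth i R hi => exact absurd rfl hm
  | death i R =>
    simp only [Multiset.mem_cons, forall_eq_or_imp] at hS
    exact hS.2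
  | split i u v R =>
    simp only [Multiset.mem_cons, forall_eq_or_imp] at hS ⊢
    exact ⟨hS.1, hS.1, hS.2⟩
  | merge i j u v R hij =>
    simp only [Multiset.mem_cons, forall_eq_or_imp] at hS
    exact absurd (hS.1.trans hS.2.1.symm) hij

theorem movie_zero {K : List End} {L : Link} (hK : IsDiagram {(0, K)})
    (h : Movie {m | m ≠ Kind.birth} {(0, K)} L) : IsDiagram L ∧ ∀ c ∈ L, c.1 = 0 := by
  unfold Movie at h
  induction h with
  | refl =>
    refine ⟨hK, ?_⟩
    intro c hc
    rw [Multiset.mem_singleton.1 hc]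
  | tail _ h' ih =>
    obtain ⟨-, hT, m, hm, hst⟩ := h'
    exact ⟨hT, step_zero hst hm ih.2⟩

/-- Let `K` be a virtual knot and let `L` be reached from `K` by a genus zero movie without
births.  Then `L` bounds a genus zero movie without Reidemeister 3 moves (births allowed) if and
only if it has a noncrossing matching, if and only if it can be reduced to the empty link by
deleting crossings with Reidemeister 1 and 2 moves, splitting circles and capping off circles; and
in this case `K` is ribbon. -/
theorem result (K : List End) (L : Link) (hK : IsDiagram {(0, K)})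
    (hL : Movie {m | m ≠ Kind.birth} {(0, K)} L) :
    [Movie {m | m ≠ Kind.r3} L 0,
      ∃ μ : ℕ → ℕ, (∀ e ∈ ends L, μ (μ e.name) = e.name) ∧ ∀ c ∈ L, NonCrossing μ c.2,
      Movie Down L 0].TFAE ∧
    (Movie {m | m ≠ Kind.r3} L 0 → Ribbon K) := by
  obtain ⟨hd, h0⟩ := movie_zero hK hL
  have h12 : Movie {m | m ≠ Kind.r3} L 0 →
      ∃ μ : ℕ → ℕ, (∀ e ∈ ends L, μ (μ e.name) = e.name) ∧ ∀ c ∈ L, NonCrossing μ c.2 := by
    intro h
    obtain ⟨μ, hv, ht⟩ := triv_of_good h0 (good_of_movie h)
    refine ⟨μ, fun e he => (hv e he).1, fun c hc => ?_⟩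
    exact nonCrossing_of_triv hv (fun x hx => mem_ends.2 ⟨c, hc, hx⟩) (nodup_circle hd hc)
      (ht c hc)
  have h23 : (∃ μ : ℕ → ℕ, (∀ e ∈ ends L, μ (μ e.name) = e.name) ∧
      ∀ c ∈ L, NonCrossing μ c.2) → Movie Down L 0 := by
    rintro ⟨μ, hμ, hc⟩
    refine down_movie _ L rfl (μ := μ) ⟨hd, h0, ?_, ?_⟩
    · intro x hx
      refine ⟨hμ x hx, ?_⟩
      obtain ⟨c, hcL, hxc⟩ := mem_ends.1 hx
      exact mem_ends.2 ⟨c, hcL, (hc c hcL).1 x hxc⟩
    · intro c hcL
      exact triv_of_nonCrossing hμ _ _ le_rfl (fun x hx => mem_ends.2 ⟨c, hcL, hx⟩)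
        (nodup_circle hd hcL) (hc c hcL)
  have h31 : Movie Down L 0 → Movie {m | m ≠ Kind.r3} L 0 := by
    refine Movie.mono ?_
    intro m hm
    rcases hm with rfl | rfl | rfl | rfl | rfl <;> simp
  have h3b : Movie Down L 0 → Movie {m | m ≠ Kind.birth} L 0 := by
    refine Movie.mono ?_
    intro m hm
    rcases hm with rfl | rfl | rfl | rfl | rfl <;> simp
  refine ⟨?_, fun h => Relation.ReflTransGen.trans hL (h3b (h23 (h12 h)))⟩
  tfae_have 1 → 2 := h12
  tfae_have 2 → 3 := h23
  tfae_have 3 → 1 := h31
  tfae_finish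

end Pool.Agent.Results.MP_fa0691_gt.NoR3AfterBirth
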